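import Mathlib

/-!
# Definitions for the Gog-Magog trapezoid theorem (project GM, helper174)

Everything is indexed by `Fin k` (0-indexed).  For a variable `x` write `u(x) = x (1 - x)`.
The *bar* of `x` is `1 - x`.
-/

set_option autoImplicit false

namespace Pool.Agent.H174.GM

open Finset

section alg
variable {R : Type*} [CommRing R] {k : ℕ}

/-- `u(x) = x (1 - x)` -/
def uu (x : R) : R := x * (1 - x)

/-- the pair factor `m(u,y) = y + u (1-y)^2`; for `u = uu x` it is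
`(1 - x (1-y)) (1 - (1-x) (1-y))` -/
def mm (u y : R) : R := y + u * (1 - y) ^ 2

/-- `d2(u,v) = u + v - 3uv + u²v²`; `d2 (uu a) (uu b) = mm (uu a) b * mm (uu a) (1-b)` -/
def d2 (u v : R) : R := u + v - 3 * u * v + u ^ 2 * v ^ 2

/-- the pairs `p < q` -/
def pairs (k : ℕ) : Finset (Fin k × Fin k) := univ.filter fun p => p.1 < p.2

/-- `c(Y) = ∏_{p<q} m(u(Y_p), Y_q)` -/
def cc (Y : Fin k → R) : R := ∏ p ∈ pairs k, mm (uu (Y p.1)) (Y p.2)

/-- `f_a(Y) = ∏ Y_i^{a_i} c(Y)` -/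
def ff (a : Fin k → ℕ) (Y : Fin k → R) : R := (∏ i, Y i ^ a i) * cc Y

/-- `D(X) = ∏_{p<q} d2(u_p,u_q)` -/
def dd (X : Fin k → R) : R := ∏ p ∈ pairs k, d2 (uu (X p.1)) (uu (X p.2))

/-- the type B Vandermonde `∏ (1-2x_i) ∏_{p<q} (x_p - x_q)(1 - x_p - x_q)` -/
def db (X : Fin k → R) : R :=
  (∏ i, (1 - 2 * X i)) * ∏ p ∈ pairs k, (X p.1 - X p.2) * (1 - X p.1 - X p.2)

/-- sign changes: replace `x_i` by `1 - x_i` where `ε i = true` -/
def flp (ε : Fin k → Bool) (X : Fin k → R) : Fin k → R :=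
  fun i => if ε i then 1 - X i else X i

/-- the sign of a sign change -/
def sg (ε : Fin k → Bool) : ℤ := ∏ i, if ε i then (-1 : ℤ) else 1

/-- `A_a(X)`: the antisymmetrisation of `f_a` over the symmetric group -/
def aa (a : Fin k → ℕ) (X : Fin k → R) : R :=
  ∑ σ : Equiv.Perm (Fin k), (Equiv.Perm.sign σ : ℤ) • ff a (X ∘ σ)

/-- the bracket `[a]`: antisymmetrisation over the hyperoctahedral group -/
def br (a : Fin k → ℕ) (X : Fin k → R) : R := ∑ ε : Fin k → Bool, sg ε • aa a (flp ε X)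

/-- the exponents `(1,2,...,k)` -/
def st (k : ℕ) : Fin k → ℕ := fun i => i.1 + 1

/-- `psi = [1,2,...,k]` -/
def psi (X : Fin k → R) : R := br (st k) X

/-- `det (X_i ^ a_j)` -/
def vv (a : Fin k → ℕ) (X : Fin k → R) : R :=
  ∑ σ : Equiv.Perm (Fin k), (Equiv.Perm.sign σ : ℤ) • ∏ i, X (σ i) ^ a i

/-- `cut_i(a_0,...,a_k) = (a_0,...,a_{i-1}, a_{i+1}+1, ..., a_k+1)` -/
def cut (i : Fin (k + 1)) (a : Fin (k + 1) → ℕ) : Fin k → ℕ :=
  fun j => if j.1 < i.1 then a j.castSucc else a j.succ + 1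

/-- strictly increasing `l` with `a_j ≤ l_j ≤ a_{j+1}` -/
def inter (a : Fin (k + 1) → ℕ) : Finset (Fin k → ℕ) :=
  (Fintype.piFinset fun j : Fin k => Finset.Icc (a j.castSucc) (a j.succ)).filter
    fun l => ∀ i j : Fin k, i < j → l i < l j

end alg

section field
variable {K : Type*} [Field K] {k : ℕ}

/-- `G(X) = ∏ 1/(1-x_i) ∏_{p<q} (x_q - x_p)/(1 - x_p x_q)` -/
def gg (X : Fin k → K) : K :=
  (∏ i, (1 - X i)⁻¹) * ∏ p ∈ pairs k, (X p.2 - X p.1) * (1 - X p.1 * X p.2)⁻¹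

/-- the antisymmetrisation of `G` over all sign changes -/
def ee (X : Fin k → K) : K := ∑ ε : Fin k → Bool, sg ε • gg (flp ε X)

end field

/-! ### the field of iterated Laurent series -/

/-- exponents, ordered lexicographically (index `0` is the most significant one) -/
abbrev Ex (k : ℕ) : Type := Lex (Fin k → ℤ)

/-- the field of iterated Laurent series over `ℚ` in `k` variables; in this field
`x_0 ≪ x_1 ≪ ... ≪ x_{k-1} ≪ 1` -/
abbrev E (k : ℕ) : Type := HahnSeries (Ex k) ℚ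

/-- the variable `x_j` -/
noncomputable def xx {k : ℕ} (j : Fin k) : E k := HahnSeries.single (toLex (Pi.single j 1)) 1

/-- the residue: coefficient of `∏ x_i⁻¹` -/
noncomputable def res {k : ℕ} (f : E k) : ℚ := f.coeff (toLex fun _ => -1)

/-- all exponents `γ` of `f` satisfy `c ≤ γ_j` -/
def Ge {k : ℕ} (j : Fin k) (c : ℤ) (f : E k) : Prop :=
  ∀ γ : Ex k, f.coeff γ ≠ 0 → c ≤ ofLex γ j

/-- all exponents `γ` of `f` satisfy `γ_j ≤ c` -/
def Le {k : ℕ} (j : Fin k) (c : ℤ) (f : E k) : Prop :=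
  ∀ γ : Ex k, f.coeff γ ≠ 0 → ofLex γ j ≤ c

/-- `f` does not involve `x_j` -/
def Free {k : ℕ} (j : Fin k) (f : E k) : Prop := Ge j 0 f ∧ Le j 0 f

/-- `γ` is the smallest exponent of `f` -/
def Lead {k : ℕ} (f : E k) (γ : Ex k) : Prop := f.coeff γ ≠ 0 ∧ ∀ δ, δ < γ → f.coeff δ = 0

/-! ### walks -/

/-- `b → a` : `a_i ≤ b_i + 1` and `b_i + 1 ≤ a_{i+1}` -/
def Step {k : ℕ} (b a : Fin k → ℕ) : Prop :=
  (∀ i, a i ≤ b i + 1) ∧ ∀ i j : Fin k, i.1 + 1 = j.1 → b i + 1 ≤ a j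

open Classical in
/-- number of Gog walks of length `m` from `(1,...,k)` to `a` -/
noncomputable def NG (k : ℕ) : ℕ → (Fin k → ℕ) → ℕ
  | 0, a => if a = st k then 1 else 0
  | m + 1, a => if StrictMono a ∧ (∀ i, 1 ≤ a i) then
      ∑ b ∈ (Fintype.piFinset fun _ : Fin k => Finset.range (k + m + 1)).filter
        (fun b => Step b a), NG k m b else 0

open Classical in
/-- number of Magog walks of length `m` from `(0,...,0)` to `a` -/
noncomputable def NM (k : ℕ) : ℕ → (Fin k → ℕ) → ℕ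
  | 0, a => if a = (fun _ => 0) then 1 else 0
  | m + 1, a => if (∀ i, 1 ≤ a i) then
      ∑ b ∈ (Fintype.piFinset fun _ : Fin k => Finset.range (m + 1)).filter
        (fun b => Step b a), NM k m b else 0

/-- number of closed Gog walks of length `n` -/
noncomputable def gogW (n k : ℕ) : ℕ := NG k n (st k)

/-- number of Magog walks of length `n` with free end -/
noncomputable def magogW (n k : ℕ) : ℕ :=
  ∑ a ∈ Fintype.piFinset fun _ : Fin k => Finset.range (n + 1), NM k n a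

/-- the Gog residue `N'_m(a)` -/
noncomputable def gres (k m : ℕ) (a : Fin k → ℕ) : ℚ :=
  res (psi (xx (k := k)) * aa a (xx (k := k)) /
    (dd (xx (k := k)) * (∏ i, uu (xx (k := k) i)) ^ (m + k + 1)))

/-- the Magog residue `M'_m(α)` -/
noncomputable def mres (k m : ℕ) (a : Fin k → ℕ) : ℚ :=
  res (db (xx (k := k)) * vv a (xx (k := k)) / (∏ i, uu (xx (k := k) i)) ^ (m + k))

/-- the class of symmetric polynomials (in the variables `u_i`) with small degrees which vanish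
on the wheels -/
structure IsC (k : ℕ) (f : MvPolynomial (Fin k) ℚ) : Prop where
  sym : f.IsSymmetric
  deg : ∀ i, 2 * f.degreeOf i + 1 ≤ k
  top : ∀ m ∈ f.support, ∀ i i' : Fin k, i ≠ i' → 2 * m i + 1 = k → 1 ≤ m i'
  wheel : ∀ (t : Fin k → ℚ) (y : ℚ) (i j l : Fin k), i ≠ j → i ≠ l → j ≠ l → y ≠ 0 → y ≠ 1 →
    t i = uu y → t j = uu y⁻¹ → t l = uu (y / (y - 1)) → MvPolynomial.eval t f = 0

end Pool.Agent.H174.GM
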