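import Pool.Agent.H174.GM.Defs

/-!
# Statements of project GM (helper174), wave 1: algebra

Goal: `gogW n k = magogW n k` for `1 ≤ k ≤ n` (Zeilberger's Gog-Magog trapezoid theorem), which
together with the library gives a full solution of `MP_b6786a_co`.
Every statement is a `Prop` `S_X`; its complete paper proof is in the docstring.  All identities
were checked numerically.
-/

set_option autoImplicit false

namespace Pool.Agent.H174.GM

open Finset

/-- **PERM**.  Behaviour under permutations.  Proof: for `psi`/`aa` reindex the sum over `σ`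
(`σ ↦ τ σ`); note `flp ε (X ∘ τ) = (flp (ε ∘ τ⁻¹) X) ∘ τ` and `sg (ε ∘ τ⁻¹) = sg ε`.  For `dd`:
`d2` is symmetric so the product over pairs `p < q` can be reindexed by `τ` (unordered pairs).
For `db`: `∏_{p<q} (X_p - X_q)` is the Vandermonde determinant up to sign
(`Matrix.det_vandermonde`, `Matrix.det_permute`), and with `u_p - u_q = (X_p-X_q)(1-X_p-X_q)`
the product `∏_{p<q} (X p - X q)(1 - X p - X q) = ∏_{p<q} (u_p - u_q)` is a Vandermonde in the `u`'s. -/
def S_PERM : Prop := ∀ (R : Type) [CommRing R] (k : ℕ) (X : Fin k → R) (τ : Equiv.Perm (Fin k)),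
  (∀ a, aa a (X ∘ τ) = (Equiv.Perm.sign τ : ℤ) • aa a X) ∧
  (∀ a, br a (X ∘ τ) = (Equiv.Perm.sign τ : ℤ) • br a X) ∧
  dd (X ∘ τ) = dd X ∧ db (X ∘ τ) = (Equiv.Perm.sign τ : ℤ) • db X

/-- **FLIP**.  Behaviour under sign changes.  Proof: `uu (1-x) = uu x`, so `dd` is invariant; in
`db` the factor `1 - 2x` changes sign and `(X p - X q)(1 - X p - X q) = uu (X p) - uu (X q)` is
invariant.  For `br`: `flp ε (flp δ X) = flp (ε xor δ) X`, `sg` is multiplicative for `xor`;
reindex the sum. -/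
def S_FLIP : Prop := ∀ (R : Type) [CommRing R] (k : ℕ) (X : Fin k → R) (ε : Fin k → Bool),
  (∀ a, br a (flp ε X) = sg ε • br a X) ∧ dd (flp ε X) = dd X ∧ db (flp ε X) = sg ε • db X

/-- **STAR**.  Proof: let `τ = swap i j` (adjacent positions) and pair `σ` with `σ * τ`.  For
`Y = X ∘ σ` the three terms add up to
`w(Y) * cc(Y) * (1 - Y_j + Y_i Y_j)` with `w(Y) = (Y_i Y_j)^{a_i} ∏_{l ≠ i,j} Y_l^{a_l}` symmetric
under `τ`.  Now `cc(Y) = mm(uu Y_i, Y_j) * c'(Y)`, where `c'` (the product over all other pairs)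
is invariant under `τ` because `i, j` are adjacent: for `p < i` the pairs `(p,i),(p,j)` are
exchanged, for `q > j` the pairs `(i,q),(j,q)` are exchanged.  Finally
`mm (uu x) y = (1 - x(1-y)) (1 - (1-x)(1-y))` and `1 - y + x y = 1 - y(1-x)`, so
`mm (uu Y_i) Y_j * (1 - Y_j + Y_i Y_j) = (1 - Y_i(1-Y_j)) (1 - Y_j(1-Y_i)) (1 - (1-Y_i)(1-Y_j))`
is symmetric in `Y_i, Y_j`.  Hence the terms of `σ` and `σ τ` cancel
(`Finset.sum_involution` or `2 * S = 0` is not enough in general `R`; use the involution). -/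
def S_STAR : Prop := ∀ (R : Type) [CommRing R] (k : ℕ) (X : Fin k → R) (a : Fin k → ℕ)
  (i j : Fin k), i.1 + 1 = j.1 → a i = a j →
  aa a X - aa (Function.update a j (a j + 1)) X
    + aa (Function.update (Function.update a j (a j + 1)) i (a i + 1)) X = 0

/-- **REF**.  Proof: `br a X = ∑_σ ∑_ε sign σ * sg ε * ff a (flp ε X ∘ σ)`.  Fix `σ` and put
`j = σ 0`.  Flipping the bit `ε j` changes `sg ε` by `-1` and changes `Y = flp ε X ∘ σ` only at
position `0`, `Y_0 ↦ 1 - Y_0`.  `ff a Y` depends on `Y_0` only through `Y_0 ^ (a 0) = 1` and through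
`uu (Y_0)` (there is no pair `p < 0`), and `uu (1 - x) = uu x`.  So the terms cancel in pairs. -/
def S_REF : Prop := ∀ (R : Type) [CommRing R] (k : ℕ) (hk : 0 < k) (X : Fin k → R)
  (a : Fin k → ℕ), a ⟨0, hk⟩ = 0 → br a X = 0

/-- **R3ABS** (abstract summation formula).  Write `ΔA(l) = ∑_T (-1)^|T| A(l + 1_T)`.
Proof by strong induction (`k-1, k ⟹ k+1`); `k = 0` is trivial, `k = 1` is telescoping.
Let `kk = (k_0 < ... < k_{k+1})`, `kk' = (k_0,...,k_k)`, `kk'' = (k_0,...,k_{k-1})`.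
For a given last coordinate `l_k = m ∈ [k_k, k_{k+1}]` the other coordinates `l'` run over
`inter kk'`, except that for `m = k_k` those with `l'_{k-1} = k_k` are excluded.
For fixed `m`, `B_m(l') = A(l', m)` satisfies the same relation, so by induction
`∑_{l' ∈ inter kk'} ΔB_m(l') = s_m := ∑_{i ≤ k} (-1)^{k-i} A(cut_i kk', m)`.  Since
`ΔA(l', m) = ΔB_m(l') - ΔB_{m+1}(l')`, the sum over all `m` without the exclusion telescopes to
`s_{k_k} - s_{k_{k+1}+1}`; the second part gives exactly the terms `i ≤ k` of the right hand side.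
The term `i = k` of `s_{k_k}` is `A(k_0,...,k_{k-1},k_k)`, the term `i = k+1` of the right hand
side.  Remaining: with `m = k_k`,
`∑_{i<k} (-1)^{k-i} A(cut_i kk', m) = excluded`.  For `i < k`: `cut_i kk' = (cut_i kk'', m+1)`.
Excluded part: `l'_{k-1} = l_k = m` and `l'' = (l_0..l_{k-2}) ∈ inter kk''` (the condition
`l_{k-2} < m` is automatic, `l_{k-2} ≤ k_{k-1} < k_k`); for fixed `l''` and `T'' ⊆ [k-1]` the four
choices for the last two coordinates give
`A(.,m,m) - A(.,m+1,m) - A(.,m,m+1) + A(.,m+1,m+1) = - A(., m+1, m)` by the relation.  So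
excluded `= - ∑_{l'' ∈ inter kk''} ΔC(l'')`, `C(a'') = A(a'', m+1, m)`, and by induction this is
`- ∑_{i ≤ k-1} (-1)^{k-1-i} A(cut_i kk'', m+1, m)`.  Done. -/
def S_R3ABS : Prop := ∀ (V : Type) [AddCommGroup V] (k : ℕ) (A : (Fin k → ℕ) → V),
  (∀ (a : Fin k → ℕ) (i j : Fin k), i.1 + 1 = j.1 → a i = a j →
    A a - A (Function.update a j (a j + 1))
      + A (Function.update (Function.update a j (a j + 1)) i (a i + 1)) = 0) →
  ∀ kk : Fin (k + 1) → ℕ, StrictMono kk →
    ∑ l ∈ inter kk, ∑ T : Finset (Fin k),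
        ((-1 : ℤ) ^ T.card) • A (fun i => l i + if i ∈ T then 1 else 0)
      = ∑ i : Fin (k + 1), ((-1 : ℤ) ^ (k - i.1)) • A (cut i kk)

/-- **R3** (Bethe summation formula).  Proof: apply R3ABS to `A a = aa a X` (STAR), and
`∑_T (-1)^|T| aa (l + 1_T) X = ∑_σ sign σ ff l (X∘σ) ∏ (1 - X_{σ i}) = (∏ (1 - X_i)) aa l X`
(`Finset.prod_one_sub`-type expansion, `Finset.prod_add`). -/
def S_R3 : Prop := ∀ (R : Type) [CommRing R] (k : ℕ) (X : Fin k → R) (kk : Fin (k + 1) → ℕ),
  StrictMono kk → (∏ i, (1 - X i)) * ∑ l ∈ inter kk, aa l X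
    = ∑ i : Fin (k + 1), ((-1 : ℤ) ^ (k - i.1)) • aa (cut i kk) X

/-- **P6**.  Proof: expand `psi (snoc X 0)` over pairs (permutation, sign change) of `k+1`
variables.  The last variable `0` sits at some position `i` (`0 ≤ i ≤ k`).  If it is not flipped
the factor `0^(i+1) = 0` kills the term.  If it is flipped its value is `1`, `uu = 0`, sign `-1`,
and: power factor `1`; for a later position `q > i` the pair factor is `mm 0 Y_q = Y_q`; for an
earlier position `p < i` it is `mm (uu Y_p) 1 = 1`.  So the term is the term of the remaining `k`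
variables with exponents `(1,...,i, i+3, ..., k+2)` (0-indexed positions: exponent `j+1` for
`j < i`, exponent `(j+2)+1` for `j ≥ i`), with the extra sign `(-1)^{k-i}` of moving.  Hence
`psi (snoc X 0) = - ∑_{i ≤ k} (-1)^{k-i} br (cut i (1,2,...,k+1)) X`.
By R3 applied to `flp ε X` for every `ε`, with `kk = (1,...,k+1)`:
`∑_i (-1)^{k-i} br (cut i kk) X = ∑_ε sg ε (∏ (1 - Y_i)) ∑_{l ∈ inter kk} aa l Y`, `Y = flp ε X`.
Here `l ∈ inter (1,...,k+1)` means `l = (1,..,i, i+2,..,k+1)` for some `i`, so all `l_j ≥ 1` and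
`(∏ (1-Y_i)) aa l Y = (∏ uu Y_i) aa (l - 1) Y = (∏ uu X_i) aa (l-1) Y`.  By REF the sum over `ε`
vanishes if `l_0 - 1 = 0`; the only remaining `l` is `l = (2,...,k+1)` with
`l - 1 = (1,...,k)`, giving `(∏ uu X_i) psi X`.  (For `k = 0` everything is `psi = 1` on the right,
and `psi (fun _ => 0) = 0 - 1 = -1` on the left.) -/
def S_P6 : Prop := ∀ (R : Type) [CommRing R] (k : ℕ) (X : Fin k → R),
  psi (Fin.snoc (α := fun _ => R) X 0 : Fin (k + 1) → R) = -((∏ i, uu (X i)) * psi X)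

/-- **DIV**.  Proof.  Step 1 (one variable): if `A` is a domain of characteristic 0 (a `ℚ`-algebra)
and `g ∈ A[T]` satisfies `g(1-T) = -g(T)`, then `g = (1-2T) h(T(1-T))` for a unique `h ∈ A[U]`, and
`deg g = 2 deg h + 1` if `g ≠ 0`: `A[T]` is free over `A[U]`, `U = T(1-T)`, with basis `1, 1-2T`
(division by the monic polynomial `T² - T + U`), and `g = g_0(U) + (1-2T) g_1(U)` is odd iff
`g_0 = 0`.  Apply this successively to all variables: `f = ∏ (1-2X_i) β₁(uu X_1,...,uu X_k)`.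
Since `X_i ↦ uu X_i` is injective on polynomials, `β₁` is antisymmetric under permutations, hence
divisible by every `u_p - u_q` (it vanishes when `u_p = u_q`), these are pairwise non-associated
primes, so by `∏_{p<q} (u_p - u_q)`; the quotient `β` is symmetric.  In the variable `X_i`
`db` has degree `1 + 2(k-1) = 2k-1`. -/
def S_DIV : Prop := ∀ (k : ℕ) (f : MvPolynomial (Fin k) ℚ),
  (∀ σ : Equiv.Perm (Fin k), MvPolynomial.rename σ f = (Equiv.Perm.sign σ : ℤ) • f) →
  (∀ j : Fin k, MvPolynomial.aeval (fun i => if i = j then 1 - MvPolynomial.X i else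
      (MvPolynomial.X i : MvPolynomial (Fin k) ℚ)) f = -f) →
  ∃ β : MvPolynomial (Fin k) ℚ, β.IsSymmetric ∧
    f = db (fun i => (MvPolynomial.X i : MvPolynomial (Fin k) ℚ)) *
      MvPolynomial.aeval (fun i => uu (MvPolynomial.X i : MvPolynomial (Fin k) ℚ)) β ∧
    (f ≠ 0 → ∀ i, 2 * β.degreeOf i + 2 * k = f.degreeOf i + 1)

/-- **DEG**.  Proof: in `ff (st k) (flp ε X ∘ σ)` let `s = σ⁻¹ i` be the position of the variable
`i`.  It occurs with degree `≤ s+1` in the power, and with degree `≤ 2` in each of the `k-1` pair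
factors containing it.  Total `≤ s + 1 + 2(k-1) ≤ 3k - 2`. -/
def S_DEG : Prop := ∀ (k : ℕ) (i : Fin k),
  (psi (fun i => (MvPolynomial.X i : MvPolynomial (Fin k) ℚ))).degreeOf i + 2 ≤ 3 * k

/-- **WHEEL**.  Proof: from the hypotheses `X_i X_j = 1`, `(1-X_j) X_l = 1`, `(1-X_i)(1-X_l) = 1`.
So each `z` among the six elements `X_i,1-X_i,X_j,1-X_j,X_l,1-X_l` has a partner `z' = v` or
`z' = 1 - v`, where `v` is a *different* one of the three variables, with `z z' = 1`.  Consider one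
term `Y = flp ε X ∘ σ` of `psi` and let `s` be the last of the three positions of `i, j, l`.
Put `z = 1 - Y_s` and let `v` be the variable of the partner of `z`; it sits at an earlier position
`p < s`, so the partner is `Y_p` or `1 - Y_p`.  But `cc Y` contains the factor
`mm (uu Y_p) Y_s = (1 - Y_p(1-Y_s)) (1 - (1-Y_p)(1-Y_s)) = 0`. -/
def S_WHEEL : Prop := ∀ (K : Type) [Field K] (k : ℕ) (X : Fin k → K) (i j l : Fin k),
  i ≠ j → i ≠ l → j ≠ l → X i * X j = 1 → X l * (X i - 1) = X i → psi X = 0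

/-- **BETA**.  `psi = db * β(u)` with `β` in the class `IsC`, `β ≠ 0`.  Proof from PERM, FLIP, DIV,
DEG, WHEEL, P6.  Apply DIV to `f = psi (X)` in `MvPolynomial`; specialise to any `ℚ`-algebra by
`aeval` (all constructions `psi, db` commute with ring homs).  `f ≠ 0`: by induction on `k`
from P6 (`k = 0`: `psi = 1`; if `psi` were `0` for `k+1` variables then `∏ uu X_i * psi X = 0` for
`k` variables).  Degrees: `2 deg_i β + 2k = deg_i f + 1 ≤ 3k - 1`, so `2 deg_i β + 1 ≤ k`.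
Wheel: for rational `y ≠ 0,1` and rational values choose the `X_i = y, X_j = y⁻¹,
X_l = y/(y-1)`; the statement to prove is about arbitrary rational values `t_r` of the other
`u_r`: it is a polynomial identity in the `t_r` and holds for all `t_r = uu(x_r)` with generic
`x_r`, i.e. work in the field `ℚ(x_r)` (or with infinitely many values): for such values
`db ≠ 0` except for finitely many `y` and special `x_r`; so the polynomial vanishes identically in
`t_r`, and (after clearing denominators) for all `y ≠ 0, 1`.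
Top: let `2 m_i + 1 = k` (so `m_i` is the maximal possible degree) and suppose `m_{i'} = 0`.
Put `X_{i'} = 0` (by symmetry `i'` can be taken to be the last variable): by P6
`db(X) β(u)|_{X_{i'}=0} = psi|_{X_{i'}=0} = - ∏ uu X * psi(rest) = - ∏ uu X * db(rest) β'(rest)`, and
`db|_{X_{i'} = 0} = db(rest) ∏ uu X`, so `β|_{u_{i'}=0} = -β'` where `β'` is the `β` for `k-1`
variables, of degree `d` with `2d + 1 ≤ k - 1`; but the coefficient of the monomial `m` in `β` is a
coefficient of `β|_{u_{i'} = 0}`, of degree `m_i = (k-1)/2`: contradiction. -/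
def S_BETA : Prop := ∀ k : ℕ, ∃ β : MvPolynomial (Fin k) ℚ, IsC k β ∧ β ≠ 0 ∧
  ∀ (R : Type) [CommRing R] [Algebra ℚ R] (X : Fin k → R),
    psi X = db X * MvPolynomial.aeval (fun i => uu (X i)) β

/-- **FAC** (factorisation on the locus `x_0 x_1 = 1`).  Notation: `f ∈ IsC (k+2)`; for `y ≠ 0` put
`u_0 = uu (y⁻¹) = -(1-y)/y²`, `u_1 = uu y = y(1-y)`, `w = u_0 u_1 = -(1-y)²/y`; one checks
`u_0 + u_1 = 3w - w²`.
Proof.  (1) `f` is symmetric in the first two variables, so `f(u_0,u_1,t)` is a polynomial in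
`u_0+u_1` and `u_0u_1`, hence `f(u_0,u_1,t) = P(w,t)` with `P ∈ ℚ[w][t]`.
(2) `deg_w P ≤ k`.  Write `f = ∑ f_{ab}(t) u_0^a u_1^b` symmetric; for `a ≥ b`,
`u_0^a u_1^b + u_0^b u_1^a = w^b p_{a-b}` where the power sum `p_c = u_0^c + u_1^c` is a polynomial in `w`
of degree `≤ 2c` (`p_0 = 2, p_1 = 3w-w², p_{c+1} = (3w-w²)p_c - w p_{c-1}`).  So the `w`-degree of
this term is `≤ 2a - b`.  With `d = deg`, `2d + 1 ≤ k+2`: if `k` is even then `2d ≤ k`
and all is fine.  If `k` is odd, `2d ≤ k+1`, terms with `a = d`, `2d = k+1` have `b ≥ 1` by the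
property `top`, so `2a - b ≤ k`; terms with `a ≤ d - 1` have `2a ≤ k - 1`.
(3) Wheel: for the third variable `t_r = 1/w = uu (y/(y-1))` the polynomial vanishes, for all
`y ≠ 0,1`; hence `(1 - w t_r) | P` in `ℚ[w][t]` for each of the `k` indices `r`; these are pairwise
non-associated primes, so `∏_r (1 - w t_r) | P`, `P = ∏_r (1 - w t_r) Q(w,t)`, and comparing
`w`-degrees (the leading coefficient `± ∏ t_r` of the product is a non zero divisor) `Q` has
`w`-degree `0`: `Q = f'(t) ∈ ℚ[t]`.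
(4) `f' ∈ IsC k`: symmetric (as `P` is symmetric in `t`, and the product too); degree: in `t_i`,
`deg P = 1 + deg f'`, so `deg f' ≤ d - 1`, `2(d-1) + 1 ≤ k`; top: if `f'` has a monomial with
`2 m_i + 1 = k`, consider the coefficient of `t_i^{m_i + 1}` (top degree, `2(m_i+1)+1 = k+2`) in `P`:
it is `-w ∏_{r≠i} (1 - w t_r) * [t_i^{m_i}] f'`, and by `top` of `f` it is divisible by `t_{i'}`;
so `[t_i^{m_i}] f'` is divisible by `t_{i'}`; wheel: if `t_i,t_j,t_l` is a wheel then `P(w,t) = 0` for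
all `w = -(1-y)²/y`, and `∏ (1-w t_r) ≠ 0` for suitable `y`.
The identity for all fields `K ⊇ ℚ` follows since it is a polynomial identity (after
multiplication by a power of `y`). -/
def S_FAC : Prop := ∀ (k : ℕ) (f : MvPolynomial (Fin (k + 2)) ℚ), IsC (k + 2) f →
  ∃ f' : MvPolynomial (Fin k) ℚ, IsC k f' ∧
    ∀ (K : Type) [Field K] [Algebra ℚ K] (t : Fin k → K) (y : K), y ≠ 0 →
      MvPolynomial.aeval (Fin.cons (α := fun _ => K) (uu y⁻¹)
        (Fin.cons (α := fun _ => K) (uu y) t)) f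
      = (∏ r, (1 - uu y⁻¹ * uu y * t r)) * MvPolynomial.aeval t f'

/-- **LOC**.  Proof from BETA, FAC: take `β` from BETA.  For `k < 2` there are no `j ≠ q`.  Write
`k = k' + 2` and let `e` be a permutation of `Fin k` with `e j = 0`, `e q = 1`; as `β` is symmetric
its value is unchanged by permuting the arguments.  With `y = X_q`, `X_j = y⁻¹`, FAC gives the
factor `∏_r (1 - u_j u_q u_r)` times `f'(u_r : r ≠ j,q)`; `B = rename` of `f'`. -/
def S_LOC : Prop := ∀ (k : ℕ) (j q : Fin k), j ≠ q → ∃ B : MvPolynomial (Fin k) ℚ,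
  B.degreeOf j = 0 ∧ B.degreeOf q = 0 ∧
  ∀ (K : Type) [Field K] [Algebra ℚ K] (X : Fin k → K), X j * X q = 1 →
    psi X = db X * (∏ r ∈ univ.filter (fun r => r ≠ j ∧ r ≠ q),
      (1 - uu (X j) * uu (X q) * uu (X r))) * MvPolynomial.aeval (fun i => uu (X i)) B

/-- **TF**.  Write `y = X_q`, `z = 1-y`, `X_j = 1/y`, `1 - X_j = -z/y`, `u_j = -z/y²`, `u_q = yz`,
`w = u_j u_q = -z²/y`, `W_r = 1 - w u_r = (y + z² u_r)/y = (1 - z X_r)(1 - z(1-X_r))/y`.
Let `Y = flp ε X ∘ σ`; `j` sits at position `a`, `q` at position `b` (0-indexed), exponents `a+1`, `b+1`.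
`ff (st k) Y` is the product over all pairs of positions and all powers.  Pairs not involving
`j, q` and powers of the other variables do not involve `y`.
*Pair (j,q) and their powers*, multiplied by `y^{k+1}`: a polynomial in `y` of degree `≤ 2k+2`:
 - if `a < b` and `Y_b = 1 - y = z`: the pair factor `mm u_j z = (1 - y X_j)(1 - y(1-X_j)) = 0`
   (take `Q = 0`);
 - if `a < b`, `Y_b = y`: `mm u_j y = (y³ - z³)/y²`, `Y_b^{b+1} = y^{b+1}`,
   `Y_a^{a+1} ∈ {y^{-a-1}, (-z/y)^{a+1}}`; here `b - a - 2 ≥ -1`, degree `≤ (k+1) + (b+1) + 1 ≤ 2k+2`;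
 - if `b < a` and `Y_a = 1 - X_j`: pair factor `mm u_q (1 - X_j) = 0` (`1-(1-X_j) = X_j = 1/y`);
 - if `b < a`, `Y_a = 1/y`: `mm u_q (1/y) = (1+z³)/y`, `Y_b^{b+1} ∈ {y^{b+1}, z^{b+1}}`, `y^{-a-1}`.
*For every other variable* `r` with value `Z` (`= X_r` or `1 - X_r`), the product of its two pair
factors with `j` and `q` is `W_r * τ_r` with `y τ_r` a polynomial in `y` of degree `≤ 2`:
 - `r` before both: `mm u_r y = y W_r`, `mm u_r (1/y) = W_r/y`,
   `mm u_r z = z + u_r y²`, `mm u_r (-z/y) = (u_r - yz)/y²`; (in case `a<b` the factor with `q` is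
   `y W_r`, in case `b<a` the factor with `j` is `W_r/y`);
 - `r` between: case `a < b`: `mm u_j Z * mm u_r y = (Z - z(1-Z)²/y²) * y W_r`;
   case `b < a`: `mm u_q Z * mm u_r (1/y) = (Z + yz(1-Z)²) * W_r / y`;
 - `r` after both: `mm u_j Z * mm u_q Z = W_r (1 - (1-Z)/y)(1 - y(1-Z))`
   (note `1 - w u_r = (1 - z Z)(1 - z(1-Z))/y` for `Z = X_r` and for `Z = 1 - X_r`).
Altogether `y^{k+1} y^{k-2} = y^{2k-1}` and degree `≤ 2k+2 + 2(k-2) = 4k-2`. -/
def S_TF : Prop := ∀ (k : ℕ) (σ : Equiv.Perm (Fin k)) (ε : Fin k → Bool) (j q : Fin k), j ≠ q →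
  ∃ Q : Polynomial (MvPolynomial (Fin k) ℚ), Q.natDegree ≤ 4 * k - 2 ∧
    (∀ n, (Q.coeff n).degreeOf j = 0 ∧ (Q.coeff n).degreeOf q = 0) ∧
    ∀ (K : Type) [Field K] [Algebra ℚ K] (X : Fin k → K), X j * X q = 1 →
      X q ^ (2 * k - 1) * ff (st k) (flp ε X ∘ σ)
        = (∏ r ∈ univ.filter (fun r => r ≠ j ∧ r ≠ q), (1 - uu (X j) * uu (X q) * uu (X r))) *
          (Q.map (MvPolynomial.aeval X).toRingHom).eval (X q)

/-- **TR**.  Same computation as TF for `Y = X ∘ σ` with `j` at position `0` and exponent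
`b_0 = 0`, `q` at position `s ≥ 1` with exponent `b_s ≥ 1`.  The pair factor is
`mm u_j y = (y³ - z³)/y²`, the power `y^{b_s}`; for `r` between: `(Z - z(1-Z)²/y²) y W_r`, for `r`
after: `W_r (1 - (1-Z)/y)(1 - y(1-Z))`.  So after multiplication with
`y^{k-1} = y^{2 + (k-2) - 1}` everything is polynomial in `y` (using `b_s ≥ 1`). -/
def S_TR : Prop := ∀ (k : ℕ) (hk : 0 < k) (σ : Equiv.Perm (Fin k)) (b : Fin k → ℕ)
  (j q : Fin k), j ≠ q → σ ⟨0, hk⟩ = j → b ⟨0, hk⟩ = 0 → 1 ≤ b (σ.symm q) →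
  ∃ Q : Polynomial (MvPolynomial (Fin k) ℚ),
    (∀ n, (Q.coeff n).degreeOf j = 0 ∧ (Q.coeff n).degreeOf q = 0) ∧
    ∀ (K : Type) [Field K] [Algebra ℚ K] (X : Fin k → K), X j * X q = 1 →
      X q ^ (k - 1) * ff b (X ∘ σ)
        = (∏ r ∈ univ.filter (fun r => r ≠ j ∧ r ≠ q), (1 - uu (X j) * uu (X q) * uu (X r))) *
          (Q.map (MvPolynomial.aeval X).toRingHom).eval (X q)

/-- **EP**.  `S`: the quotient `uu T * dd * ee / db` is a polynomial of degree `≤ k` in `uu T`.
Proof: `X` is algebraically independent, so everything below which is a non zero polynomial in the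
`X_i` is non zero.  As a function of `T` every term of `ee (cons T X)` is
`± gg (X^ε) * (1 - T')⁻¹ ∏_i (X'_i - T')/(1 - T' X'_i)` with `T' ∈ {T, 1-T}`, `X'_i ∈ {X_i, 1-X_i}`.
Since `d2 (uu T) (uu x) = (1-Tx)(1-(1-T)x)(1-T(1-x))(1-(1-T)(1-x))`, the function
`M(T) = uu T * ∏_i d2 (uu T) (uu X_i) * dd X * ee (cons T X)` is (for generic `T`) a polynomial in
`T` of degree `≤ 1 + 4k`.  `M(1-T) = -M(T)`, and `M` vanishes at `T = X_r` and `T = 1 - X_r`, because
`ee` is alternating: `gg` changes sign when two arguments are exchanged and so does `ee`, and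
`ee (flp ε X) = sg ε • ee X` (at these points all denominators are non zero).
Hence `M(T)` is divisible by `(1-2T) ∏_r (T - X_r)(1 - T - X_r)` (pairwise coprime linear factors),
the quotient has degree `≤ 4k+1 - (2k+1) = 2k` and is invariant under `T ↦ 1-T`, hence a polynomial
of degree `≤ k` in `uu T`.  Note `db (cons T X) = (1-2T) ∏_r (T-X_r)(1-T-X_r) * db X` and
`dd (cons T X) = ∏_i d2 (uu T) (uu X_i) * dd X`; divide by `db X ≠ 0`.

**ER** (second part): the value of `S` at the node `T = 1/X_q`, `q` one of the variables.  Write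
`y = X_q`, `w = uu (y⁻¹) uu y`, `rest = X ∘ q.succAbove`.
Only the terms of `ee (cons T X)` with a pole at `T X_q = 1` contribute to `M(1/y)`: those where
neither `T` nor `X_q` is flipped.  For such a term
`gg (T, X') = ± (X_q - T)/((1-T X_q)(1-T)(1-X_q)) * gg(rest') * ∏_r (X'_r - T)(X'_r - X_q)/((1-T X'_r)(1-X_q X'_r))`
(the sign from the order of `q` and `r` cancels between factors `(X'_r - X_q)` for `r > q` and
`(X_q - X'_r)` for `r < q`: it is the global sign `(-1)^q`), and at `T = 1/y` the last product is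
`1` (each factor is `1`).  So
`M(1/y) = (-1)^q * uu T * [d2 (uu T)(uu y)/(1 - T y)] * (y - T)/((1-T)(1-y)) *
   ∏_r d2(uu T)(u_r) * dd X * ee(rest)` at `T = 1/y`, `dd X = ∏_r d2(uu y)(u_r) * dd(rest)`, and
`d2 (uu T) u_r * d2 (uu y) u_r = (uu T - u_r)(uu y - u_r)(1 - w u_r)²` (as `T y = 1`),
`[d2/(1-Ty)] = (2-y)(2y-1)(1-y+y²)/y²`.  On the other side
`db (cons T X) = (1-2T)(T-y)(1-T-y) ∏_r (T-X_r)(1-T-X_r) db X`,
`db X = (-1)^q (1-2y) ∏_r (y - X_r)(1-y-X_r) db(rest)`, `(T-X_r)(1-T-X_r) = uu T - u_r`.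
The prefactors cancel:
`uu T * (2-y)(2y-1)(1-y+y²)/y² * (y-T)/((1-T)(1-y)) = uu y⁻¹... ` precisely one gets
`S(uu y⁻¹) * db(rest) * uu y = ∏_r (1 - w u_r)² * dd(rest) * ee(rest)`
(checked numerically).  The same with `y` replaced by `1-y` (use that `ee, dd, db` only change by
signs when `X_q` is flipped). -/
def S_EP : Prop := ∀ (k : ℕ) (K : Type) [Field K] [Algebra ℚ K] (X : Fin (k + 1) → K),
  AlgebraicIndependent ℚ X → ∃ S : Polynomial K, S.natDegree ≤ k + 1 ∧
    (∀ T : K, T ≠ 0 → T ≠ 1 → (∀ i, d2 (uu T) (uu (X i)) ≠ 0) →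
      uu T * dd (Fin.cons (α := fun _ => K) T X) * ee (Fin.cons (α := fun _ => K) T X)
        = db (Fin.cons (α := fun _ => K) T X) * S.eval (uu T)) ∧
    (∀ q : Fin (k + 1), ∀ y : K, (y = X q ∨ y = 1 - X q) →
      S.eval (uu y⁻¹) * db (X ∘ q.succAbove) * uu y =
        (∏ r, (1 - uu y⁻¹ * uu y * uu (X (q.succAbove r))) ^ 2) * dd (X ∘ q.succAbove) *
          ee (X ∘ q.succAbove))

/-- **Q**.  Proof by induction `k ⟹ k+2`.  `k = 0`: `f = C c`, `κ = c²` (`db = dd = ee = 1`).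
`k = 1`: `2 deg f + 1 ≤ 1`, so `f = C c`; `ee X = 1/(1-x) - 1/x = -(1-2x)/uu x`, `κ = c²`.
Step: let `f ∈ IsC (k+2)`, `f'` from FAC and `κ` from the induction hypothesis for `f'`.  Let
`X = cons X_0 X'` be algebraically independent, `X' : Fin (k+1) → K`, and let `S` be from EP for `X'`,
`natDegree S ≤ k+1`.  `F(U) = f(U, uu X'_1, ...)` is a polynomial in `U` of degree `d`,
`2d + 1 ≤ k + 2`, so `F²` has degree `≤ k+1`.  Claim
`F(U)² = κ (-1)^k ∏_{i} uu (X'_i) * S(U)`.  Both sides have degree `≤ k+1` and they agree at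
the `2(k+1)` nodes `U = uu (X'_q⁻¹)`, `U = uu ((1-X'_q)⁻¹)` (pairwise distinct: `-(1-x)/x²` and
`-x/(1-x)²` for algebraically independent `x`), because there by FAC (and symmetry of `f`)
`F(U) = ∏_r (1 - w u_r) * f'(rest)`, and by induction
`f'(rest)² db(rest) = κ (-1)^k ∏ uu(rest) dd(rest) ee(rest)`, and by EP
`S(U) db(rest) uu y = ∏ (1-w u_r)² dd(rest) ee(rest)`; multiply by `∏ uu (rest)`.
Finally put `U = uu X_0`. -/
def S_Q : Prop := ∀ (k : ℕ) (f : MvPolynomial (Fin k) ℚ), IsC k f → ∃ κ : ℚ,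
  ∀ (K : Type) [Field K] [Algebra ℚ K] (X : Fin k → K), AlgebraicIndependent ℚ X →
    (MvPolynomial.aeval (fun i => uu (X i)) f) ^ 2 * db X
      = algebraMap ℚ K (κ * (-1) ^ k) * (∏ i, uu (X i)) * dd X * ee X

/-! ### the field `E k` -/

/-- **EH1**.  Closure properties.  Products: `HahnSeries.coeff_mul` is a sum over the antidiagonal
of the supports, and `ofLex (a + b) j = ofLex a j + ofLex b j`. -/
def S_EH1 : Prop := ∀ (k : ℕ) (j : Fin k) (a b : ℤ) (f g : E k),
  (Ge j a f → Ge j b g → Ge j (a + b) (f * g)) ∧ (Le j a f → Le j b g → Le j (a + b) (f * g)) ∧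
  (Ge j a f → Ge j a g → Ge j a (f + g)) ∧ (Le j a f → Le j a g → Le j a (f + g)) ∧
  (Ge j a f → Ge j a (-f)) ∧ (Le j a f → Le j a (-f)) ∧
  (Ge j a f → b ≤ a → Ge j b f) ∧ (Le j a f → a ≤ b → Le j b f) ∧
  (∀ γ δ : Ex k, Lead f γ → Lead g δ → Lead (f * g) (γ + δ))

/-- **EH2**.  Inverses.  Proof (for `Ge`): `h = f⁻¹`, `f h = 1`.  Suppose `h` has an exponent `δ` with
`δ_j < -γ_j`; take the smallest such `δ` (the support is well-ordered).  The coefficient of `f h` at
`γ + δ` is a sum over `a + b = γ + δ`, `a` in the support of `f`, `b` in the support of `h`: the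
pair `(γ, δ)` contributes `f_γ h_δ ≠ 0`; in any other pair `a > γ` so `b < δ`, and
`b_j = γ_j + δ_j - a_j ≤ δ_j < -γ_j` as `a_j ≥ γ_j`, contradicting the minimality.  So this
coefficient is non zero, but it is the coefficient of `1` at `γ + δ ≠ 0` (its `j`-coordinate is
negative): contradiction.  `Le` is the same with reversed signs.  `Lead f⁻¹ (-γ)` is clear. -/
def S_EH2 : Prop := ∀ (k : ℕ) (f : E k) (γ : Ex k), Lead f γ →
  Lead f⁻¹ (-γ) ∧ (∀ j : Fin k, Ge j (ofLex γ j) f → Ge j (-(ofLex γ j)) f⁻¹) ∧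
  (∀ j : Fin k, Le j (ofLex γ j) f → Le j (-(ofLex γ j)) f⁻¹)

/-- **EAI**.  The `x_j` are algebraically independent: distinct monomials are
`HahnSeries.single` at distinct exponents. -/
def S_EAI : Prop := ∀ k : ℕ, AlgebraicIndependent ℚ (xx (k := k))

/-- **BAR1**.  Odd polynomials.  See DIV, step 1 (e.g. induction on the degree: an odd polynomial
has odd degree `2d+1`, subtract `c (1-2T) (T(1-T))^d`). -/
def S_BAR1 : Prop := ∀ (K : Type) [Field K] [CharZero K] (P : Polynomial K),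
  P.comp (1 - Polynomial.X) = -P → P ≠ 0 → ∃ B : Polynomial K,
    P = (1 - 2 * Polynomial.X) * B.comp (Polynomial.X * (1 - Polynomial.X)) ∧
    P.natDegree = 2 * B.natDegree + 1

/-- **BAR2**.  Partial fractions with simple nodes and a pole at `0`.  Proof: Lagrange
interpolation: `B = S ∏ (U - s_i) + ∑_i B(s_i)/∏_{i'≠i}(s_i - s_{i'}) ∏_{i'≠i} (U - s_{i'})` with
`S = B /ₘ ∏ (U - s_i)`, so `S = 0` or `natDegree S + 2 ≤ N`.  Divide by `u^N ∏ (u - s_i)` and use
`1/(u^N (u - s)) = s^{-N} (1/(u-s) - ∑_{l=1}^N s^{l-1}/u^l)`.  The coefficients of `S` lie in the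
subfield generated by the coefficients of `B` and the `s_i`: this is recorded by a subfield `L`. -/
def S_BAR2 : Prop := ∀ (K : Type) [Field K] (L : Subfield K) (ι : Type) [Fintype ι]
  [DecidableEq ι] (s : ι → K) (N : ℕ) (B : Polynomial K), (∀ i, s i ∈ L) → (∀ i, B.coeff i ∈ L) →
  Function.Injective s → (∀ i, s i ≠ 0) → B.natDegree + 2 ≤ N + Fintype.card ι →
  ∃ S : Polynomial K, (∀ i, S.coeff i ∈ L) ∧ (S = 0 ∨ S.natDegree + 2 ≤ N) ∧
    ∀ u : K, u ≠ 0 → (∀ i, u ≠ s i) →
      B.eval u / (u ^ N * ∏ i, (u - s i)) = S.eval u / u ^ N +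
        ∑ i, B.eval (s i) / (s i ^ N * ∏ i' ∈ univ.filter (fun i' => i' ≠ i), (s i - s i')) *
          (1 / (u - s i) - ∑ l ∈ Finset.range N, s i ^ l / u ^ (l + 1))

end Pool.Agent.H174.GM
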