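import Pool.Agent.H154.GM174.NORMM
import Pool.Agent.H155.GM174.WG
import Pool.Agent.H162.GM174.Sym
import Pool.Agent.H187.GM174.POS
import Pool.Agent.H190.GM174.EPM
import Pool.Agent.H21.GM174.LITREC
import Pool.Agent.H215.GM174.MAIN
import Pool.Agent.H218.GM174.EAI
import Pool.Agent.H218.GM174.EH1
import Pool.Agent.H264.GM174.R2
import Pool.Agent.H284.GM174.RATIO
import Pool.Agent.H295.GM174.STAR
import Pool.Agent.H295.GM174.WHEEL
import Pool.Agent.H326.GM174.BAR1
import Pool.Agent.H326.GM174.EH2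
import Pool.Agent.H326.GM174.MREC
import Pool.Agent.H326.GM174.ODD
import Pool.Agent.H388.GM174.DG
import Pool.Agent.H388.GM174.FAC
import Pool.Agent.H390.GM174.DIV
import Pool.Agent.H390.GM174.EP
import Pool.Agent.H399.GM174.P6
import Pool.Agent.H399.GM174.R3
import Pool.Agent.H407.GM174.QPSI
import Pool.Agent.H407.GM174.REGN
import Pool.Agent.H415.GM174.MSYM
import Pool.Agent.H441.GM174.BAR
import Pool.Agent.H441.GM174.Q
import Pool.Agent.H52.GM174.GCNT
import Pool.Agent.H549.GM174.MBD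
import Pool.Agent.H665.GM174.REG
import Pool.Agent.H695.GM174.EALT
import Pool.Agent.H695.GM174.NORMG
import Pool.Agent.H722.GM174.A2
import Pool.Agent.H728.GM174.XF
import Pool.Agent.H729.GM174.EH3
import Pool.Agent.H729.GM174.MTOT
import Pool.Agent.H734.GM174.DEG
import Pool.Agent.H747.GM174.GSYM
import Pool.Agent.H77.GM174.WM
import Pool.Agent.H791.GM174.BETA
import Pool.Agent.H791.GM174.LOC
import Pool.Agent.H860.GM174.DM
import Pool.Agent.H872.GM174.MCNT
import Pool.Agent.H903.GM174.R3ABS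
import Pool.Agent.H94.GM174.GREC
import Pool.Agent.H946.GM174.LIT
import Pool.Agent.H946.GM174.MC
import Pool.Agent.H946.GM174.TF
import Pool.Agent.H946.GM174.TR
import Pool.Agent.H974.GM174.A1
import Pool.Agent.H974.GM174.BAR2
import Pool.Graph.R_pool_sql_team_seeded_620a6dc7.R103.GogMain

/-!
# Project GM: assembly

Closed Gog walks and Magog walks are equinumerous (`gog_eq_magog`), hence left Gog trapezoids and right
Magog trapezoids; with the library theorem on left GOGAm trapezoids this gives the theorem of the page.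
-/

set_option autoImplicit false

namespace Pool.Agent.H174.GM

theorem t_ref : S_REF := Pool.Agent.H162.GM174.ref
theorem t_perm : S_PERM := Pool.Agent.H162.GM174.perm
theorem t_flip : S_FLIP := Pool.Agent.H162.GM174.flip
theorem t_star : S_STAR := Pool.Agent.H295.GM174.star
theorem t_wheel : S_WHEEL := Pool.Agent.H295.GM174.wheel
theorem t_r3abs : S_R3ABS := Pool.Agent.H903.GM174.r3abs
theorem t_r3 : S_R3 := Pool.Agent.H399.GM174.r3 t_r3abs t_star
theorem t_p6 : S_P6 := Pool.Agent.H399.GM174.p6 t_r3 t_ref t_perm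
theorem t_div : S_DIV := Pool.Agent.H390.GM174.divis
theorem t_deg : S_DEG := Pool.Agent.H734.GM174.degr
theorem t_beta : S_BETA := Pool.Agent.H791.GM174.beta t_perm t_flip t_div t_deg t_wheel t_p6
theorem t_fac : S_FAC := Pool.Agent.H388.GM174.fac
theorem t_loc : S_LOC := Pool.Agent.H791.GM174.loc t_beta t_fac
theorem t_ealt : S_EALT := Pool.Agent.H695.GM174.ealt
theorem t_epm : S_EPM := Pool.Agent.H190.GM174.EPM.epm
theorem t_ep : S_EP := Pool.Agent.H390.GM174.EP.ep t_epm t_ealt t_flip t_perm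
theorem t_eh1 : S_EH1 := Pool.Agent.H218.GM174.eh1
theorem t_eh2 : S_EH2 := Pool.Agent.H326.GM174.EH2.eh2
theorem t_eh3 : S_EH3 := Pool.Agent.H729.GM174.eh3
theorem t_eai : S_EAI := Pool.Agent.H218.GM174.eai
theorem t_xf : S_XF := Pool.Agent.H728.GM174.xf t_eh1 t_eh2
theorem t_odd : S_ODD := Pool.Agent.H326.GM174.ODD.odd t_eh1 t_eh3 t_xf
theorem t_bar1 : S_BAR1 := Pool.Agent.H326.GM174.BAR1.bar1
theorem t_bar2 : S_BAR2 := Pool.Agent.H974.GM174.bar2
theorem t_bar : S_BAR := Pool.Agent.H441.GM174.bar t_eh1 t_eh2 t_eh3 t_xf t_odd t_bar1 t_bar2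
theorem t_regn : S_REGN := Pool.Agent.H407.GM174.regn t_eh1 t_eh3 t_xf
theorem t_reg : S_REG := Pool.Agent.H665.GM174.reg t_regn t_eh1 t_eh2 t_xf
theorem t_tf : S_TF := Pool.Agent.H946.GM.tf
theorem t_tr : S_TR := Pool.Agent.H946.GM.tr
theorem t_dg : S_DG :=
  Pool.Agent.H388.GM174.dg t_bar t_loc t_tf t_perm t_flip t_eh1 t_eh2 t_eh3 t_xf
theorem t_r2 : S_R2 :=
  Pool.Agent.H264.GM174.r2 t_bar t_loc t_tr t_perm t_flip t_eh1 t_eh2 t_eh3 t_xf
theorem t_dm : S_DM := Pool.Agent.H860.GM174.DM.dm t_bar t_flip t_ealt t_eh1 t_eh2 t_eh3 t_xf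
theorem t_grec : S_GREC := Pool.Agent.H94.GM174.grec t_r3 t_reg t_r2 t_eh1 t_eh2 t_eh3 t_xf
theorem t_gcnt : S_GCNT := Pool.Agent.H52.GM174.gcnt t_grec t_reg
theorem t_gsym : S_GSYM := Pool.Agent.H747.GM174.gsym t_dg t_eh3
theorem t_msym : S_MSYM := Pool.Agent.H415.GM174.msym t_dm t_eh3
theorem t_mrec : S_MREC := Pool.Agent.H326.GM174.MREC.mrec t_regn t_eh1 t_eh3 t_xf
theorem t_mbd : S_MBD := Pool.Agent.H549.GM174.mbd t_odd t_eh1 t_eh3 t_xf
theorem t_mc : S_MC := Pool.Agent.H946.GM.mc t_eh1 t_eh3 t_xf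
theorem t_mcnt : S_MCNT := Pool.Agent.H872.GM174.mcnt t_mrec t_mbd t_mc t_regn
theorem t_litrec : S_LITREC := Pool.Agent.H21.GM174.litrec
theorem t_lit : S_LIT := Pool.Agent.H946.GM.lit t_litrec t_eai t_eh1 t_eh2 t_xf
theorem t_mtot : S_MTOT := Pool.Agent.H729.GM174.mtot t_lit t_mcnt t_regn t_eh1 t_eh3 t_xf
theorem t_pos : S_POS := Pool.Agent.H187.GM174.pos
theorem t_wg : S_WG := Pool.Agent.H155.GM174.wg
theorem t_wm : S_WM := Pool.Agent.H77.GM174.wm
theorem t_normg : S_NORMG := Pool.Agent.H695.GM174.normg t_wg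
theorem t_normm : S_NORMM := Pool.Agent.H154.GM174.normm t_wm
theorem t_a1 : S_A1 := Pool.Agent.H974.GM174.a1 t_wg
theorem t_a2 : S_A2 := Pool.Agent.H722.GM174.a2 t_wm

theorem t_q : S_Q := Pool.Agent.H441.GM174Q.q t_fac t_ep

/-- closed Gog walks and Magog walks are equinumerous (Zeilberger's theorem, in this form) -/
theorem gog_eq_magog : S_MAIN :=
  Pool.Agent.H215.GM174.main
    (Pool.Agent.H284.GM174.ratio t_gsym t_msym
      (Pool.Agent.H407.GM174.QP.qpsi t_q t_beta t_eai) t_mtot t_gcnt t_pos)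
    t_normg t_normm t_pos

open Pool.Agent.R103.Gog in
/-- left Gog and left GOGAm trapezoids are equinumerous -/
theorem left_eq (n k : ℕ) (hk : 1 ≤ k) (hkn : k ≤ n) :
    (leftTrapezoids n k (IsGog n)).Finite ∧ (leftTrapezoids n k (IsGOGAm n)).Finite ∧
      (leftTrapezoids n k (IsGog n)).ncard = (leftTrapezoids n k (IsGOGAm n)).ncard := by
  have hn : 1 ≤ n := hk.trans hkn
  refine ⟨?_, finite_left hn, ?_⟩
  · have := (finite_idx (n := n) (K := k)).1
    apply (Set.Finite.pi' (fun _ : LeftIdx n k => Set.finite_Icc (1 : ℤ) n)).subset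
    rintro f ⟨X, hX, hf⟩ p
    obtain ⟨h1, _, h3⟩ := hX
    have hp := p.2
    rw [hf]
    refine ⟨h1.pos _ _ hp.1 hp.2.1 hp.2.2.1, ?_⟩
    have e1 := le_all h1 p.1.1 p.1.2 hp.1 hp.2.1 hp.2.2.1
    rw [h3 n hn (le_refl _)] at e1
    exact e1
  · rw [t_a1 n k hk hkn, gog_eq_magog n k hk hkn, ← t_a2 n k hk hkn, Pool.Agent.R103.Gog.main hk hkn]

end Pool.Agent.H174.GM
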