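import Pool.Agent.H174.GM.Stmts

/-!
# Statements of project GM (helper174), wave 2: residues, walks, assembly
-/

set_option autoImplicit false

namespace Pool.Agent.H174.GM

open Finset

/-- **EALT**.  `ee` is alternating.  Proof: `gg (X ∘ τ) = sign τ • gg X`, because
`gg X = ∏ (1-X_i)⁻¹ ∏_{p<q} h(X_p,X_q)` with `h(x,y) = (y - x)(1 - x y)⁻¹ = - h(y,x)` (no condition on
the denominators is needed; reindex the pairs, or reduce to adjacent swaps).  Then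
`flp ε (X ∘ τ) = (flp (ε ∘ τ⁻¹) X) ∘ τ`.  Sign changes: `flp ε (flp δ X) = flp (xor) X`. -/
def S_EALT : Prop := ∀ (K : Type) [Field K] (k : ℕ) (X : Fin k → K),
  (∀ τ : Equiv.Perm (Fin k), ee (X ∘ τ) = (Equiv.Perm.sign τ : ℤ) • ee X) ∧
  (∀ ε, ee (flp ε X) = sg ε • ee X)

/-- **EPM**.  The function `uu T ∏ d2(uu T)(uu X_i) ee(cons T X)` is a polynomial `M` in `T` of
degree `≤ 4(k+1)+1`, with a known value at `T = 1/X_q`.
Proof.  `ee (cons T X) = ∑_{δ, ε} ± gg (cons T' (flp ε X))`, `T' = T` or `1-T`, and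
`gg (cons T' Y) = (1-T')⁻¹ ∏_i (Y_i - T')(1 - T' Y_i)⁻¹ * gg Y`.  As
`d2 (uu T) (uu x) = (1-Tx)(1-(1-T)x)(1-T(1-x))(1-(1-T)(1-x))` and `uu T = T (1-T)`, each term times
`uu T ∏ d2` is a polynomial in `T` of degree `≤ 1 + 4(k+1)`: for `T' = T`, it is
`T * ∏_i (Y_i - T) * [d2 / (1 - T Y_i)] * gg Y`, where `[d2/(1-T Y_i)]` is the product of the other
three factors; similarly for `T' = 1 - T`.
Value at `T = y⁻¹`, `y = X_q`: a term with `T' = T` has the factor `d2/(1-T Y_q)` which is `0`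
at `T = 1/y` unless `Y_q = X_q` (the factor `1 - T X_q` is still there if `Y_q = 1 - X_q`); a term with
`T' = 1-T` has the factor `d2/(1-(1-T)Y_q)`, which still contains `1 - T X_q`, so it is `0`.  For the
remaining terms (`T' = T`, `Y_q = X_q`, `Y_r = X_r` or `1 - X_r` for the others)
`gg Y = (-1)^q (1-y)⁻¹ ∏_r (Y_r - y)(1 - y Y_r)⁻¹ * gg (Y ∘ q.succAbove)` (the sign: `q` factors
`(y - Y_r)`, `r < q`), and `(Y_r - T)(Y_r - y) = (1 - T Y_r)(1 - y Y_r)` for `T y = 1`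
(`(Y_r - 1/y)(Y_r - y) = Y_r² - (y+1/y) Y_r + 1`).  So the term is
`(-1)^q * T * (y - T) * (1-(1-T)y)(1-T(1-y))(1-(1-T)(1-y)) * (1-y)⁻¹ * ∏_r d2 (uu T)(u_r) * gg(rest)`
and with `T = 1/y`: `(1-(1-T)y) = 2-y`, `1-T(1-y) = (2y-1)/y`, `1-(1-T)(1-y) = (1-y+y²)/y`,
`T (y-T)/(1-y) = -(1+y)/y²`. -/
def S_EPM : Prop := ∀ (k : ℕ) (K : Type) [Field K] [Algebra ℚ K] (X : Fin (k + 1) → K),
  AlgebraicIndependent ℚ X → ∃ M : Polynomial K, M.natDegree ≤ 4 * k + 5 ∧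
    (∀ T : K, T ≠ 0 → T ≠ 1 → (∀ i, d2 (uu T) (uu (X i)) ≠ 0) →
      M.eval T = uu T * (∏ i, d2 (uu T) (uu (X i))) * ee (Fin.cons (α := fun _ => K) T X)) ∧
    (∀ q : Fin (k + 1), M.eval (X q)⁻¹ =
      (-1) ^ q.1 * (-((2 - X q) * (2 * X q - 1) * (1 - X q + X q ^ 2) * (1 + X q) *
        ((X q)⁻¹) ^ 4)) * (∏ r, d2 (uu (X q)⁻¹) (uu (X (q.succAbove r)))) *
        ee (X ∘ q.succAbove))

/-- **EH3**.  Residues: trivial facts. -/
def S_EH3 : Prop := ∀ (k : ℕ), (∀ f g : E k, res (f + g) = res f + res g) ∧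
  (∀ (c : ℚ) (f : E k), res (algebraMap ℚ (E k) c * f) = c * res f) ∧
  (∀ (j : Fin k) (f : E k), Ge j 0 f → res f = 0) ∧
  (∀ (j : Fin k) (f : E k), Le j (-2) f → res f = 0)

/-- **XF**.  Basic facts on the variables: `Lead` exponents and freeness; membership of the
subfield of elements not involving `x_j`. -/
def S_XF : Prop := ∀ (k : ℕ) (j : Fin k),
  Lead (xx j) (toLex (Pi.single j 1)) ∧ Ge j 1 (xx j) ∧ Le j 1 (xx j) ∧
  (∀ i, i ≠ j → Free j (xx i)) ∧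
  (∀ i, Lead (1 - xx i : E k) 0 ∧ Ge i 0 (1 - xx i : E k) ∧ Ge i 0 ((1 - xx i : E k)⁻¹)) ∧
  (∀ c : ℚ, Free j (algebraMap ℚ (E k) c)) ∧
  (∀ f g : E k, Free j f → Free j g → Free j (f + g) ∧ Free j (f * g)) ∧
  (∀ f : E k, Free j f → Free j (-f) ∧ Free j f⁻¹)

/-- **ODD**.  `res (c (1-2x_j)/u_j^i) = 0` for `i ≥ 2` and `= res (c x_j⁻¹)` for `i = 1`.
Proof: with `d_l = x⁻ˡ - (1-x)⁻ˡ` one has `d_0 = 0`, `(1-2x)/u = d_1`, `(1/u) d_l = d_{l+1} + (1/u) d_{l-1}`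
(as `1/x + 1/(1-x) = 1/u`), so `(1/u) d_l = d_{l+1} + d_l + ... + d_2` for `l ≥ 1`, and by induction
`(1-2x)/u^i` is a rational combination of `d_2, ..., d_i` for `i ≥ 2`.  `c x_j⁻ˡ` satisfies
`Le j (-l)`, `c (1-x_j)⁻ˡ` satisfies `Ge j 0`. -/
def S_ODD : Prop := ∀ (k : ℕ) (j : Fin k) (c : E k), Free j c →
  (∀ i : ℕ, 2 ≤ i → res (c * (1 - 2 * xx j) / uu (xx j) ^ i) = 0) ∧
  res (c * (1 - 2 * xx j) / uu (xx j)) = res (c * (xx j)⁻¹)

/-- the residue of `P(T)/(uu T ^ N ∏ d2 (uu T) (u_q))` at the root `a` of `d2 (uu T) (u_q)` -/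
noncomputable def Cof {k : ℕ} (j q : Fin k) (N : ℕ) (P : Polynomial (E k)) (a : E k) : E k :=
  P.eval a / ((1 - 2 * a) * (1 - 3 * uu (xx q) + 2 * uu a * uu (xx q) ^ 2) * uu a ^ N *
    ∏ r ∈ univ.filter (fun r => r ≠ j ∧ r ≠ q), d2 (uu a) (uu (xx r)))

/-- **BAR** (residue theorem in one variable).
Proof.  Let `L` be the subfield of all `f` with `Free j f` (XF).  Write `y = x_q`, `v = uu y`.
`d2 u v = v² (u - s)(u - s')` with `s = uu (y⁻¹) = -(1-y)/y²`, `s' = uu ((1-y)⁻¹) = -y/(1-y)²`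
(`s s' = 1/v`, `v²(s+s') = -(1-3v)`).  All these nodes (`q ≠ j`) are non zero and pairwise distinct:
their leading exponents are `-2e_q` and `e_q`.  By BAR1 (over the field `L`)
`P = (1-2T) B(T(1-T))`, `B ∈ L[U]`, `2 deg B + 1 + 2 ≤ 2N + 4(k-1)`, so `deg B + 2 ≤ N + 2(k-1)`.
With `u = uu x_j`, BAR2 writes `P(x_j)/(u^N ∏ d2) = c₀ (1-2x_j) B(u)/(u^N ∏ (u - s))` as
`c₀(1-2x_j) S(u)/u^N + ∑_s c_s (1-2x_j)(1/(u-s) - ∑_{l<N} s^l/u^{l+1})`,
`c₀ = ∏ v_q^{-2}`, `c_s = c₀ B(s)/(s^N ∏_{s'≠s} (s-s'))`.  By ODD the terms of `S` (powers `u^{-i}`, `i ≥ 2`,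
as `deg S + 2 ≤ N`) and the terms `l ≥ 1` have residue `0`, and the term `l = 0` has residue
`- res (c_s x_j⁻¹)`.  Next, if `s = uu a` then
`(1-2x)/(uu x - uu a) = 1/(x-a) + 1/(x-(1-a))`.
 * `a = y⁻¹`: `x_j - a` and `x_j - (1-a)` have leading exponent `-e_q` (j-coordinate `0`) and satisfy
   `Ge j 0`; so the inverses satisfy `Ge j 0` and the residue of `c_s/(x_j - a)` etc. is `0`.
 * `a = (1-y)⁻¹`: `x_j - a` has leading exponent `0`: same.  `a' = 1-a = -y/(1-y)`: if `j < q` then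
   `x_j - a'` has leading exponent `e_q`: same.  If `q < j` then the leading exponent is `e_j`, and
   `Le j 1`; so `(x_j - a')⁻¹` satisfies `Le j (-1)`, and
   `(x_j-a')⁻¹ = x_j⁻¹ + a' x_j⁻¹ (x_j-a')⁻¹`, the second term satisfies `Le j (-2)`: the residue is
   `res (c_s x_j⁻¹)`.
So the residue is an integral linear combination of the numbers `res (c_s x_j⁻¹)`.  Finally
`c_s = Cof j q N P a`: `P(a) = (1-2a) B(s)`, and `v_q² (s - s') = 1 - 3v + 2 s v²`,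
`d2 (uu a) (u_r) = v_r² (s - s_r)(s - s_r')` for `r ≠ q`. -/
def S_BAR : Prop := ∀ (k : ℕ) (j : Fin k) (N : ℕ) (P : Polynomial (E k)), 1 ≤ N →
  (∀ i, Free j (P.coeff i)) → P.comp (1 - Polynomial.X) = -P →
  P.natDegree + 2 ≤ 2 * N + 4 * (k - 1) →
  (∀ q, q ≠ j → res ((xx j)⁻¹ * Cof j q N P (xx q)⁻¹) = 0 ∧
    res ((xx j)⁻¹ * Cof j q N P (1 - xx q)⁻¹) = 0) →
  res (P.eval (xx j) / (uu (xx j) ^ N *
    ∏ q ∈ univ.filter (fun q => q ≠ j), d2 (uu (xx j)) (uu (xx q)))) = 0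

/-- all exponents of `f` are `≥ 0` and one of them is `≥ N` -/
def NN {k : ℕ} (N : ℕ) (f : E k) : Prop :=
  ∀ γ : Ex k, f.coeff γ ≠ 0 → (∀ l, 0 ≤ ofLex γ l) ∧ ∃ l, (N : ℤ) ≤ ofLex γ l

/-- **REGN**.  Proof: `f g/(∏ uu)^N = (∏ x_l)^{-N} f g'` with `g' = g ∏ (1-x_l)^{-N}`, all exponents of
`g'` are `≥ 0`.  An exponent of `f g'` has a coordinate `≥ N`; after the shift it is `≥ 0`. -/
def S_REGN : Prop := ∀ (k N : ℕ) (f g : E k), NN N f → (∀ l, Ge l 0 g) →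
  res (f * g / (∏ i, uu (xx i)) ^ N) = 0

/-- **REG**.  Proof from REGN: `dd X = ∏_{p<q} mm (uu X_{σp}) X_{σq} * mm (uu X_{σp}) (1 - X_{σq})`
(as `d2 (uu a)(uu b) = mm (uu a) b * mm (uu a) (1-b)` and the product over unordered pairs), so
`ff a (X∘σ)/dd X = ∏ X_{σ i}^{a_i} ∏_{p<q} (mm (uu X_{σp}) (1 - X_{σq}))⁻¹`, and
`mm (uu X) (1-Y) = 1 - Y + uu(X) Y²` has leading exponent `0` and `Ge l 0`, so its inverse is `Ge l 0`. -/
def S_REG : Prop := ∀ (k N : ℕ) (a : Fin k → ℕ) (σ : Equiv.Perm (Fin k)) (i : Fin k) (h : E k),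
  N ≤ a i → (∀ l, Ge l 0 h) →
  res (psi (xx (k := k)) * ff a (xx ∘ σ) * h / (dd (xx (k := k)) * (∏ i, uu (xx i)) ^ N)) = 0

/-- **DG** (change one sign in the Gog integrand).  `N = n + k + 1`.
Proof.  Let `ε' = update ε j (!ε j)`, `X_T = x` with `x_j` replaced by `T`, and
`P(T) = κ₀ psi(X_T) (ff (st k) (flp ε X_T ∘ σ) + ff (st k) (flp ε' X_T ∘ σ))`,
`κ₀⁻¹ = ∏_{i≠j} uu(x_i)^N ∏_{p<q, p,q≠j} d2(u_p,u_q)` (formally: evaluate in `Polynomial (E k)` at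
`i ↦ if i = j then X else C (x_i)`).  `P(1-T) = -P(T)` by FLIP (psi changes sign, the two summands
are exchanged), coefficients are free of `x_j`, degree `≤ 2(3k-2)` (each `ff (st k)` term has degree
`≤ k + 2(k-1)` in one variable), and `6k - 4 + 2 ≤ 2N + 4(k-1) = 2n + 6k - 2`.  So by BAR it is enough
to show that the two numbers `res (x_j⁻¹ Cof)` vanish.
*Root* `a = y⁻¹`, `y = x_q`.  `X = X_a` satisfies `X_j X_q = 1`.  Put `w = uu a * uu y = -(1-y)²/y`,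
`W = ∏_{r≠j,q} (1 - w u_r)`.  LOC: `psi X = db X * W * B`, `B` free of `x_j, x_q`.  TF:
`ff (...) = y^{-(2k-1)} W Q(y)`, `Q` polynomial in `y` of degree `≤ 4k-2` with coefficients free of
`x_j, x_q`; the same for `ε'`.  `db X = ± (1-2a)(1-2y)(uu a - uu y) ∏_r (uu a - u_r)(uu y - u_r) *
db(rest)`, `d2 (uu a) u_r * d2 (uu y) u_r = (uu a - u_r)(uu y - u_r)(1 - w u_r)²` (as `a y = 1`),
`(1-2y)(uu a - uu y)/(1 - 3 uu y + 2 uu a (uu y)²) = (1-y)(1+y)/y²`, `w^{-N} = (-1)^N y^N (1-y)^{-2N}`.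
Altogether `Cof = c * (1+y) * y^{n-k} * (Q₁+Q₂)(y) * (1-y)^{1-2N}` with `c` free of `x_j, x_q`
(`-2 - (2k-1) + N = n - k ≥ 0`).  Hence `Ge q 0` and the residue vanishes.
*Root* `a = (1-y)⁻¹`.  Let `X'` be `X_a` with `x_q` replaced by `1 - x_q`: `X'_j X'_q = 1`.  By FLIP and
`flp ε X_a = flp (ε with bit q changed) X'` the same computation with `y` replaced by `1-y` gives
`Cof = c * (2-y) * (1-y)^{n-k} * Q'(1-y) * y^{1-2N}`; the numerator is a polynomial in `y` of degree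
`≤ 1 + (n-k) + (4k-2) = n + 3k - 1`, so all exponents of `y` are
`≤ n + 3k - 1 - (2n + 2k + 1) = k - n - 2 ≤ -2`: `Le q (-2)` and the residue vanishes. -/
def S_DG : Prop := ∀ (k n : ℕ), k ≤ n → ∀ (σ : Equiv.Perm (Fin k)) (ε : Fin k → Bool) (j : Fin k),
  res (psi (xx (k := k)) * ff (st k) (flp ε xx ∘ σ) /
      (dd (xx (k := k)) * (∏ i, uu (xx i)) ^ (n + k + 1)))
    = - res (psi (xx (k := k)) * ff (st k) (flp (Function.update ε j (!ε j)) xx ∘ σ) /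
      (dd (xx (k := k)) * (∏ i, uu (xx i)) ^ (n + k + 1)))

/-- **R2** (boundary values vanish).  `N = m + k + 1`.  Proof: `gres k m b` is the sum over `σ` of
`± res (psi ff b (x∘σ)/(dd ∏ uu^N))`; each of them vanishes.  Let `j = σ 0`.  Since `b_0 = 0`,
`ff b (X_T ∘ σ)` is a polynomial in `uu T` (degree `≤ k-1`), so
`P(T) = κ₀ psi(X_T) ff b (X_T ∘ σ)` is odd, degree `≤ (3k-2) + 2(k-1)`, and
`5k - 4 + 2 ≤ 2N + 4(k-1)`.  Use BAR.  Root `a = y⁻¹` (notation as in DG): by LOC and TR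
`Cof = c (1-y)(1+y) y^{-2} y^{-(k-1)} y^N (1-y)^{-2N} Q(y)`, exponent `-2-(k-1)+N = m ≥ 0`: `Ge q 0`.
(`b (σ⁻¹ q) ≥ 1` because `b` is strictly increasing and `σ⁻¹ q ≠ 0`.)
Root `a = (1-y)⁻¹`: `ff b (X_a ∘ σ)` has the factor
`mm (uu a) y = (1 - a(1-y))(1 - (1-a)(1-y)) = 0`, so `P(a) = 0`. -/
def S_R2 : Prop := ∀ (k : ℕ) (hk : 0 < k) (m : ℕ) (b : Fin k → ℕ), StrictMono b →
  b ⟨0, hk⟩ = 0 → gres k m b = 0

/-- **DM** (change one sign in the Magog integrand).  `N' = n + k`, `N = N' + 1`.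
Proof: as in DG with `F(T) = db(X_T) (gg (flp ε X_T) + gg (flp ε' X_T))` (odd in `T`),
`P(T) = κ₀ uu(T) ∏_{q≠j} d2 (uu T) (u_q) F(T)`, `κ₀⁻¹ = ∏_{i≠j} uu(x_i)^{N'}`; it is a polynomial in `T`
because the denominators `(1-T')(1 - T' X'_q)` of `gg` divide `uu T ∏ d2` (see EPM); degree
`≤ (2k-1) + 1 + 4(k-1) = 6k - 4`.  Then `P/(uu^N ∏ d2) = κ₀ F/uu^{N'}`.
Root `a = y⁻¹`, `y = x_q`: only a term in which neither `T` nor `x_q` is flipped contributes.  By the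
computation of EPM (`(Y_r - T)(Y_r - y) = (1-TY_r)(1-yY_r)`) the coupling to the other variables
`r` disappears from `gg`, and
`Cof = ± κ₀ db(X) * (1+y)/(y(1-y)) * gg(rest') * (uu a)^{-N'}`
(`[d2/(1-Ty)]/((1-2a)(1-3uu y+2uu a (uu y)²)) = -1/y`, `(y-a)/((1-a)(1-y)) = (1+y)/(1-y)`).  Here
`db X = ± (1-2/y)(1-2y)(uu a - uu y) ∏_r (uu a - u_r)(uu y - u_r) db(rest)`,
`uu a - uu y = -(1-y)(1+y³)/y²`, `uu a - u_r = -((1-y) + y² u_r)/y²`,
`(uu a uu y)^{-N'} = (-1)^{N'} y^{N'} (1-y)^{-2N'}`.  So `Cof = c y^{n-k} R(y) (1-y)^{-2N'}` with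
`c` free of `x_j,x_q`, `R` polynomial in `y` of degree
`≤ 1 + 1 + 3 + 1 + 4(k-2) = 4k - 2` (coefficients free of `x_j, x_q`); exponent
`-1-2-2(k-2)-1+N' = n-k ≥ 0`: `Ge q 0`.
Root `a = (1-y)⁻¹`: replace `y` by `1-y`: exponents of `y` are
`≤ (n-k) + 4k - 2 - 2(n+k) = k - n - 2 ≤ -2`: `Le q (-2)`. -/
def S_DM : Prop := ∀ (k n : ℕ), k ≤ n → ∀ (ε : Fin k → Bool) (j : Fin k),
  res (db (xx (k := k)) * gg (flp ε (xx (k := k))) / (∏ i, uu (xx (k := k) i)) ^ (n + k))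
    = - res (db (xx (k := k)) * gg (flp (Function.update ε j (!ε j)) (xx (k := k))) /
      (∏ i, uu (xx (k := k) i)) ^ (n + k))

/-- **GREC**.  `N = m + k + 1`.  Proof: if `a_{k-1} ≥ m+k+2` then the left side is `0` by REG
(exponent of `∏ uu` is `m+1+k+1`) and the sum is empty (`b_{k-1} ≥ a_{k-1} - 1 > m + k`).  Otherwise
`kk = (a_0-1,...,a_{k-1}-1, m+k+1)` is strictly increasing and R3 gives, as
`cut k kk = a - 1` and `aa a = ∏ x_i * aa (a-1)`,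
`aa a/∏ uu x_i = ∑_{l ∈ inter kk} aa l - ∑_{i<k} (-1)^{k-i} aa (cut i kk)/∏ (1-x_i)`.
Multiply by `psi/(dd ∏ uu^N)` and take residues.  The terms `i < k` vanish by REG (last exponent
`m+k+2 ≥ N`, `h = ∏ (1-x_i)⁻¹`), the terms with `l_{k-1} = m+k+1 = N` vanish by REG, the terms with
`l_0 = 0` vanish by R2.  The remaining `l` are exactly the `b` on the right hand side:
`l_j ≥ a_j - 1`, `l_j ≤ a_{j+1} - 1`, strictly increasing, `l_0 ≥ 1`, `l_{k-1} ≤ m+k`. -/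
def S_GREC : Prop := ∀ (k m : ℕ) (a : Fin k → ℕ), 0 < k → StrictMono a → (∀ i, 1 ≤ a i) →
  gres k (m + 1) a = ∑ b ∈ (Fintype.piFinset fun _ : Fin k => Finset.range (k + m + 1)).filter
    (fun b => ((∀ i, a i ≤ b i + 1) ∧ ∀ i j : Fin k, i.1 + 1 = j.1 → b i + 1 ≤ a j) ∧
      (∀ i j : Fin k, i < j → b i < b j) ∧ ∀ i, 1 ≤ b i), gres k m b

/-- **GCNT**.  Proof by induction on `m` from GREC; `m = 0`: if `a ≠ st k` then the last exponent
is `≥ k+1 = N` and REG gives `gres k 0 a = 0`.  In the induction step `NG k m b = 0` for those `b`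
which are not strictly increasing or have `b_0 = 0` (`m ≥ 1` by definition, `m = 0` since `b ≠ st k`). -/
def S_GCNT : Prop := ∀ (k m : ℕ) (a : Fin k → ℕ), 0 < k → StrictMono a → (∀ i, 1 ≤ a i) →
  gres k m a = gres k 0 (st k) * NG k m a

/-- **GSYM**.  Proof: `R(σ,ε) = res (psi ff (st k) (flp ε x ∘ σ)/...)` satisfies `R(σ,ε) = sg ε R(σ,0)`
by DG.  `psi = ∑_{ε,σ} sg ε sign σ ff (st k) (flp ε x ∘ σ)`, so
`res (psi²/...) = ∑_{ε,σ} sg ε sign σ R(σ,ε) = 2^k ∑_σ sign σ R(σ,0) = 2^k gres`. -/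
def S_GSYM : Prop := ∀ (k n : ℕ), k ≤ n → 2 ^ k * gres k n (st k) =
  res (psi (xx (k := k)) ^ 2 / (dd (xx (k := k)) * (∏ i, uu (xx (k := k) i)) ^ (n + k + 1)))

/-- **MSYM**.  Proof from DM as in GSYM. -/
def S_MSYM : Prop := ∀ (k n : ℕ), k ≤ n →
  2 ^ k * res (db (xx (k := k)) * gg (xx (k := k)) / (∏ i, uu (xx (k := k) i)) ^ (n + k)) =
  res (db (xx (k := k)) * ee (xx (k := k)) / (∏ i, uu (xx (k := k) i)) ^ (n + k))

/-- **QPSI**.  Proof: BETA gives `psi x = db x * β(u)`, `β ∈ IsC k`, `β ≠ 0`; Q (with EAI) gives `κ` with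
`β(u)² db = κ (-1)^k ∏ uu dd ee`; multiply by `db`.  `κ ≠ 0` since `β(u) ≠ 0` and `db x ≠ 0` (the
`uu x_i` are algebraically independent; `db x` is a non zero polynomial in the `x_i`). -/
def S_QPSI : Prop := ∀ k : ℕ, ∃ κ : ℚ, κ ≠ 0 ∧ psi (xx (k := k)) ^ 2 =
  algebraMap ℚ (E k) κ * (∏ i, uu (xx (k := k) i)) * db (xx (k := k)) * dd (xx (k := k)) *
    ee (xx (k := k))

/-- **MREC**.  `N = m + k`.  Proof: if `a_{k-1} ≥ m+k+1` then the left side is `0` by REGN (exponent of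
`∏ uu` is `m+1+k`) and the sum is empty.  Otherwise put `α_j = a_j - 1` (`j < k`), `α_k = m+k`; the `b`
in the sum are given by `α_j ≤ b_j < α_{j+1}`.  So
`∏ (1-X_i) ∑_b vv b X = ∑_σ sign σ ∏_j (X_{σj}^{α_j} - X_{σj}^{α_{j+1}})` is the determinant with columns
`c_j - c_{j+1}`, `c_j = (X_i^{α_j})_i`; by column operations it is `det (c_0 - c_k, ..., c_{k-1} - c_k)
= vv α X + (terms with a column c_k)`.  The latter terms contain a power `x^{m+k}` and contribute `0`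
by REGN.  Finally `vv a = ∏ x_i vv α`, so
`db vv a/∏ uu^{m+1+k} = db vv α/(∏ (1-x_i) ∏ uu^{m+k})`. -/
def S_MREC : Prop := ∀ (k m : ℕ) (hk : 0 < k) (a : Fin k → ℕ), StrictMono a → 1 ≤ a ⟨0, hk⟩ →
  mres k (m + 1) a = ∑ b ∈ (Fintype.piFinset fun _ : Fin k => Finset.range (m + k)).filter
    (fun b => (∀ i, a i ≤ b i + 1) ∧ ∀ i j : Fin k, i.1 + 1 = j.1 → b i + 2 ≤ a j), mres k m b

/-- **MBD**.  Proof: for each `σ` put `j = σ 0`; `x_j` does not occur in `∏ x_{σi}^{a_i}`.  As a function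
of `x_j`, `db x = (1-2x_j) * (polynomial in uu x_j of degree ≤ k-1, coefficients free of x_j)`
(`(X_p-X_q)(1-X_p-X_q) = u_p - u_q`).  So the integrand is a sum of `c (1-2x_j) u_j^{l-m-k}` with
`l ≤ k-1`, exponent `≤ -m-1 ≤ -2`, and ODD applies. -/
def S_MBD : Prop := ∀ (k m : ℕ) (hk : 0 < k) (a : Fin k → ℕ), StrictMono a → a ⟨0, hk⟩ = 0 →
  1 ≤ m → mres k m a = 0

/-- **MC**.  The initial value.  Proof: `db x/∏ uu^k = ∑_τ sign τ ∏_i (x_{τi}^{-i-1} - (1-x_{τi})^{-i-1})`: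
with `t = 1/uu x = 1/x + 1/(1-x)` the function `x^{-i-1} - (1-x)^{-i-1}` is
`(1/x - 1/(1-x)) p_i(t)` with `p_i` monic of degree `i` (recursion as in ODD), so the determinant is
`∏ (1/x_l - 1/(1-x_l)) ∏_{p<q} (t_q - t_p)`, and `t_q - t_p = (u_p - u_q)/(u_p u_q)`.  Multiply by
`vv (0,...,k-1) = ∑_σ sign σ ∏ x_{σi}^i` and expand.  A term containing some `(1-x_l)^{-s}` is regular in
`x_l` (`Ge l 0`): residue `0`.  The monomial terms are `∏_l x_l^{σ⁻¹(l) - τ⁻¹(l) - 1}`, residue `1` if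
`σ = τ` and `0` otherwise.  The sum is `k!`. -/
def S_MC : Prop := ∀ k : ℕ, mres k 0 (fun i => i.1) = (Nat.factorial k : ℚ)

/-- **MCNT**.  Proof by induction on `m`: `m = 0`: if `α ≠ (0,...,k-1)` then `α_{k-1} ≥ k` and REGN gives
`0`; otherwise MC.  `m+1`: if `α_0 = 0` both sides are `0` (MBD); otherwise MREC; the substitution
`b_i ↦ b_i - i` matches the two sums (`b ∈ box`, strictly increasing, `b_i ≤ m + i`; the values
`a_i = α_i - i` are weakly increasing, `a_i ≥ 1`; `Step` is `a_i ≤ b_i + 1`, `b_i + 1 ≤ a_{i+1}`).  Note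
that in the NM-sum only weakly increasing `b` (with `b_i ≤ m`) satisfying `Step b a` occur. -/
def S_MCNT : Prop := ∀ (k m : ℕ) (α : Fin k → ℕ), 0 < k → StrictMono α →
  mres k m α = (Nat.factorial k : ℚ) * NM k m (fun i => α i - i.1)

/-- **LITREC**.  Proof: divide by `gg X`: with `P = ∏ X_i`,
`(-1)^j ∏_{q≠j} X_q * gg(X without j)/gg X = (P/X_j)(1-X_j) ∏_{i≠j} (1-X_iX_j)/(X_i-X_j)`, so the claim is
`1 - P = ∑_j P ∏_i (1 - X_i X_j)/(X_j (1+X_j) ∏_{i≠j} (X_i - X_j))` (use `(1-X_j)/(1-X_j²) = 1/(1+X_j)`).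
This is the residue theorem (Lagrange/partial fractions) for
`P ∏_i (1-X_i z)/(z (1+z) ∏_i (X_i - z))` (`k+1` variables; numerator degree `k+1`, denominator degree
`k+3`): residue at `0` is `1`, at `-1` it is `-P`, at `z = X_j` it is minus the `j`-th term. -/
def S_LITREC : Prop := ∀ (k : ℕ) (K : Type) [Field K] [Algebra ℚ K] (X : Fin (k + 1) → K),
  AlgebraicIndependent ℚ X → (1 - ∏ i, X i) * gg X =
    ∑ j : Fin (k + 1), (-1) ^ j.1 * (∏ q, X (j.succAbove q)) * gg (X ∘ j.succAbove)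

/-- **LIT** (Littlewood identity, truncated).  Write
`L_k^M(X) = ∑_{0 ≤ α_0 < ... < α_{k-1} < M} vv α X` and `R_k^M = gg - L_k^M`.
Proof by induction on `M` (all `k`, `e`): for `k = 0` it is `1 - 1 = 0`; for `M = 0`, `k ≥ 1`:
`R = gg (x∘e)`, all exponents are `≥ 0` (inverses of `1 - x_i`, `1 - x_i x_j`, leading exponent `0`).
Step (`k ≥ 1`): splitting by `α_0 = 0` or `α_0 ≥ 1`,
`L_k^{M+1} = ∏ X_i L_k^M + ∑_j (-1)^j ∏_{q≠j} X_q L_{k-1}^M(X without j)` (expand the determinant along the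
row of the exponent `0`), and by LITREC (with EAI)
`gg = ∏ X_i gg + ∑_j (-1)^j ∏_{q≠j} X_q gg(X without j)`.  Subtract:
`R_k^{M+1} = ∏ X_i R_k^M + ∑_j (-1)^j ∏_{q≠j} X_q R_{k-1}^M(X without j)`.  Every exponent of `R_k^M` has a
coordinate `≥ M` among the variables in question, and after multiplication with the product of
these variables it is `≥ M+1`. -/
def S_LIT : Prop := ∀ (K k : ℕ) (e : Fin k ↪ Fin K) (M : ℕ) (γ : Ex K),
  (gg (fun i => xx (e i)) - ∑ α ∈ (Fintype.piFinset fun _ : Fin k => Finset.range M).filter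
      (fun α => ∀ i j : Fin k, i < j → α i < α j), vv α (fun i => xx (e i))).coeff γ ≠ 0 →
    (∀ l, 0 ≤ ofLex γ l) ∧ ∃ i : Fin k, (M : ℤ) ≤ ofLex γ (e i)

/-- **MTOT**.  Proof: LIT with `K = k`, `e = id`, `M = n+k`, and REGN: the residue of
`db gg/∏ uu^{n+k}` is `∑_α mres k n α` over the strictly increasing `α` with `α_{k-1} < n+k`; by MCNT this
is `k! ∑ NM k n (α_i - i)`; `α ↦ (α_i - i)` is a bijection onto the weakly increasing
`a : Fin k → {0,...,n}`, and `NM k n a = 0` if `a` is not weakly increasing. -/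
def S_MTOT : Prop := ∀ (k n : ℕ), 0 < k →
  res (db (xx (k := k)) * gg (xx (k := k)) / (∏ i, uu (xx (k := k) i)) ^ (n + k)) =
    (Nat.factorial k : ℚ) * magogW n k

/-- **POS**.  Proof: the walk `(t,...,t)` at time `t`. -/
def S_POS : Prop := ∀ (n k : ℕ), 0 < magogW n k

/-- **RATIO**.  Proof: for `n ≥ k`, with `κ` from QPSI:
`2^k gres k n (st k) = res (psi²/(dd ∏ uu^{n+k+1})) = κ res (db ee/∏ uu^{n+k}) = κ 2^k res (db gg/∏ uu^{n+k})
= κ 2^k k! magogW n k` (GSYM, QPSI, MSYM, MTOT) and `gres k n (st k) = gres k 0 (st k) gogW n k` (GCNT).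
Since `κ ≠ 0` and `magogW > 0` the constant `gres k 0 (st k)` is not zero. -/
def S_RATIO : Prop := ∀ k : ℕ, 0 < k → ∃ C : ℚ, ∀ n, k ≤ n →
  (gogW n k : ℚ) = C * (magogW n k : ℚ)

/-- **WG**.  Gog walks as sequences.  Proof by induction on the length (generalise the end
point: `NG k m a` is the number of sequences of length `m` from `st k` to `a`; all entries are bounded
by `k + m`, so the sum over the box is a sum over all `b`). -/
def S_WG : Prop := ∀ (k m : ℕ) (a : Fin k → ℕ), NG k m a =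
  Set.ncard {w : Fin (m + 1) → (Fin k → ℕ) | w 0 = st k ∧ w (Fin.last m) = a ∧
    ∀ t : Fin m, Step (w t.castSucc) (w t.succ) ∧ StrictMono (w t.succ) ∧ ∀ i, 1 ≤ w t.succ i}

/-- **WM**.  Magog walks as sequences. -/
def S_WM : Prop := ∀ (k m : ℕ), magogW m k =
  Set.ncard {w : Fin (m + 1) → (Fin k → ℕ) | w 0 = (fun _ => 0) ∧
    ∀ t : Fin m, Step (w t.castSucc) (w t.succ) ∧ ∀ i, 1 ≤ w t.succ i}

/-- **NORMG**.  Proof (with WG): let `w` be a closed walk of length `n = k+1` for `k+1` coordinates.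
`Step (w t) (w (t+1))` gives `w(t)_i + 1 ≤ w(t+1)_{i+1}`, and `w(t)_i ≥ i+1` always; so by downward
induction on `t`: `w(t)_i = i+1` whenever `i + (n - t) ≤ k`.  In particular `w(t)_0 = 1` for all `t`.
Then `v(t)_i = w(t)_{i+1} - 1` is a closed walk for `k` coordinates, and conversely from `v` one gets
`w` by `w(t)_0 = 1`, `w(t)_{i+1} = v(t)_i + 1` (the condition `w(t)_0 + 1 ≤ w(t+1)_1` is `v(t+1)_0 ≥ 1`). -/
def S_NORMG : Prop := ∀ k : ℕ, 1 ≤ k → gogW (k + 1) (k + 1) = gogW (k + 1) k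

/-- **NORMM**.  Proof (with WM): for a Magog walk of length `n = k+1` with `k+1` coordinates, by upward
induction `w(t)_i = t` for `t ≤ i + 1`: `w(t)_i ≤ t` always, and `w(t)_i ≥ w(t-1)_{i-1} + 1 = t` if
`t - 1 ≤ i` and `i ≥ 1`; for `i = 0`: `w(1)_0 = 1`, `w(0)_0 = 0`.  So the last coordinate (`i = k`) is
`w(t)_k = t` for all `t ≤ k+1`; delete it (the conditions on it are then automatic:
`w(t)_{k-1} + 1 ≤ t + 1`). -/
def S_NORMM : Prop := ∀ k : ℕ, 1 ≤ k → magogW (k + 1) (k + 1) = magogW (k + 1) k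

/-- **MAIN**.  Proof: `C_k = 1` for all `k ≥ 1` in RATIO: `k = 1`: `gogW 1 1 = magogW 1 1 = 1`
(compute); step: `n = k+1`, NORMG and NORMM: `C_{k+1} magogW (k+1) (k+1) = gogW (k+1) (k+1)
= gogW (k+1) k = C_k magogW (k+1) k = magogW (k+1) (k+1)`, and POS. -/
def S_MAIN : Prop := ∀ (n k : ℕ), 1 ≤ k → k ≤ n → gogW n k = magogW n k

end Pool.Agent.H174.GM
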