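import Pool.Agent.H174.GM.Stmts2
import Pool.Graph.R_pool_sql_team_seeded_620a6dc7.R103.GogMain

/-!
# Statements of project GM (helper174), wave 3: trapezoids and walks

`IsGog`, `IsMagog`, `leftTrapezoids`, `rightTrapezoids` are the definitions of the library module
`Pool.Graph.R_pool_sql_team_seeded_620a6dc7.R103.GogDefs` (namespace `Pool.Agent.R103.Gog`).
-/

set_option autoImplicit false

namespace Pool.Agent.H174.GM

open Pool.Agent.R103.Gog

/-- **A1**.  Left Gog trapezoids and closed Gog walks.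
Proof.  (1) *Local description.*  A function `x` on the left index set is a left Gog trapezoid iff
(a) `x(n,j) = j`, (b) `x(i+1,j) ≤ x(i,j)`, (c) `x(i,j) ≤ x(i+1,j+1)` if `j+1 ≤ k`,
(d) `x(i,j) < x(i,j+1)` if `j+1 ≤ min(i,k)`, (e) `x(i,k) ≤ n - i + k` for `k ≤ i`
(all for indices inside the trapezoid), and `x ≥ 1`.  Necessity: in a Gog triangle
`X_{i,j} ≤ X_{n, j+n-i} = n - i + j`.  Sufficiency: put `X_{i,j} = n - i + j` for `j > k`:
strictly increasing rows by (e); `X_{i+1,j} = n-i-1+j ≤ X_{i,j}`;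
`X_{i,j} ≤ X_{i+1,j+1} = n-i+j`, equality for `j > k` and (e) for `j = k`; `X_{n,j} = j`.
Note that (c) and (e) imply `x(i,i) ≤ n` for `i ≤ k`, and `x(i,j) ≥ j` by (d).
(2) *Bijection with the walks of WG* (`m = n`, end point `st k`).  For `0 ≤ t ≤ n` put `i = n - t` and, with
1-indexed coordinates `j = 1..k` (0-indexed: `j-1`), `c = k+1-j`:
`w(t)_j = k + 1 + t - x(n-t, c)` if `c ≤ n - t`, and `w(t)_j = j` if `c > n - t` ('virtual').
`w(0)_j = k+1 - (k+1-j) = j`, and `w(n)` is all virtual, `= st k`.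
Step conditions `w(t)_{j-1} + 1 ≤ w(t+1)_j ≤ w(t)_j + 1` are (c) and (b); the condition
`w(t+1)_1 ≥ 1` is (e) for row `n-t-1`; strict monotonicity is (d).  Virtual coordinates: `j ≤ k-(n-t)`;
if `w(t)_j` is real and `w(t+1)_j` virtual, i.e. `c = n-t = i`, `j = k+1-i`, then
`j ≤ w(t)_j + 1 = k+2+n-i-x(i,i)` since `x(i,i) ≤ n`, and `j ≥ w(t)_{j-1} + 1 = j`.  Strict monotonicity
between a virtual coordinate `j` and a real one `j+1`: `w(t)_{j+1} ≥ j+1` because of the step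
condition `w(t)_{j+1} ≥ w(t-1)_j + 1 ≥ j + 1` (`w ≥ j` always, by strict monotonicity and `≥ 1`; for
`x` this is `x(i,c) ≤ n - i + c`).
Conversely let `w` be a closed walk.  `w(t)_j + 1 ≤ w(t+1)_{j+1}`, `w(t)_j ≥ j`, so by downward
induction on `t` (from `w(n) = st k`): `w(t)_j = j` for `j ≤ k - (n-t)`.  So `w` is determined by its real
coordinates, and `x(n-t,c) = k+1+t - w(t)_{k+1-c}` defines a left Gog trapezoid (positivity: `x(i,1) ≥ 1`
follows from `x(n,1) = 1` and (b)). -/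
def S_A1 : Prop := ∀ (n k : ℕ), 1 ≤ k → k ≤ n →
  (leftTrapezoids n k (IsGog n)).ncard = gogW n k

/-- **A2**.  Right Magog trapezoids and Magog walks.
Proof.  (1) A function `x` on the right index set is a right Magog trapezoid iff `x ≥ 1`,
`x(i+1,j) ≤ x(i,j)`, `x(i,j) ≤ x(i+1,j+1)`, `x(j,j) ≤ j` (indices inside the trapezoid): extend by `1`
to the left (indices with `i - j ≥ k`).
(2) *Bijection with the walks of WM* (`m = n`).  For `1 ≤ i ≤ n` and 1-indexed `d = 1..k`: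
`w(i)_d = i + 1 - x(i, i+1-d)` if `d ≤ i`, `w(i)_d = i` if `d > i` ('virtual'); `w(0) = 0`.
Conditions: `w(i+1)_d ≤ w(i)_d + 1` is `x(i+1, i+2-d) ≥ x(i, i+1-d)`;
`w(i)_d + 1 ≤ w(i+1)_{d+1}` is `x(i+1, i+1-d) ≤ x(i, i+1-d)`; `w(i)_d ≥ 1` is `x(i,i+1-d) ≤ i` which
follows from `x(i,i) ≤ i` and monotonicity; `w(i)_d ≤ i` is `x ≥ 1`.  Virtual coordinates are fine:
`w(i+1)_{i+1} = i + 2 - x(i+1,1) ≤ i + 1` and `≥ w(i)_i + 1 = i + 2 - x(i,1)` as `x(i+1,1) ≤ x(i,1)`.
Conversely for a Magog walk `w(i)_d ≤ i`, and `w(i)_d = i` for `d ≥ i` (`w(i)_d ≥ w(i-1)_{d-1} + 1`), so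
the virtual coordinates are forced (and also `w(i)_i = i`, i.e. `x(i,1) = 1`). -/
def S_A2 : Prop := ∀ (n k : ℕ), 1 ≤ k → k ≤ n →
  (rightTrapezoids n k (IsMagog n)).ncard = magogW n k

end Pool.Agent.H174.GM
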